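import Mathlib

open MeasureTheory ProbabilityTheory Filter
open scoped NNReal ENNReal Topology

namespace Pool.Agent.Work.MP_dddec1_pr

variable {Ω : Type*} {mΩ : MeasurableSpace Ω}

/-- The augmented natural filtration of the pair `(B1, B2)`: at time `t` it is generated by the
variables `B1 s`, `B2 s` for `s ≤ t` and by all `P`-null sets. -/
noncomputable def augFiltration (P : Measure Ω) [P.IsComplete] (B1 B2 : ℝ≥0 → Ω → ℝ)
    (h1 : IsBrownianReal B1 P) (h2 : IsBrownianReal B2 P) : Filtration ℝ≥0 mΩ where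
  seq t := (⨆ s ∈ Set.Iic t, (MeasurableSpace.comap (B1 s) Real.measurableSpace ⊔
      MeasurableSpace.comap (B2 s) Real.measurableSpace)) ⊔
    MeasurableSpace.generateFrom {N : Set Ω | P N = 0}
  mono' := fun _ _ hst => sup_le_sup_right
    (biSup_mono fun _ hs => Set.mem_Iic.mpr ((Set.mem_Iic.mp hs).trans hst)) _
  le' := fun _ => sup_le
    (iSup₂_le fun s _ => sup_le
      (h1.toIsPreBrownianReal.aemeasurable s).nullMeasurable.measurable_of_complete.comap_le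
      (h2.toIsPreBrownianReal.aemeasurable s).nullMeasurable.measurable_of_complete.comap_le)
    (MeasurableSpace.generateFrom_le fun _ hN => measurableSet_of_null hN)

/-- An elementary process `h(ω) 1_{(u,v]}(s)`, with `u ≤ v` deterministic and `h` bounded and
`𝓕 u`-measurable. -/
structure Block (𝓕 : Filtration ℝ≥0 mΩ) where
  u : ℝ≥0
  v : ℝ≥0
  h : Ω → ℝ
  u_le_v : u ≤ v
  measurable_h : Measurable[𝓕 u] h
  bounded_h : ∃ C : ℝ, ∀ ω, |h ω| ≤ C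

/-- A simple process: a finite sum of elementary processes. -/
noncomputable def simpleProc {𝓕 : Filtration ℝ≥0 mΩ} (L : List (Block 𝓕)) (s : ℝ≥0) (ω : Ω) :
    ℝ :=
  (L.map fun b => if b.u < s ∧ s ≤ b.v then b.h ω else 0).sum

/-- The integral up to time `t` of a simple process against `B`. -/
noncomputable def simpleInt {𝓕 : Filtration ℝ≥0 mΩ} (L : List (Block 𝓕)) (B : ℝ≥0 → Ω → ℝ)
    (t : ℝ≥0) (ω : Ω) : ℝ :=
  (L.map fun b => b.h ω * (B (min b.v t) ω - B (min b.u t) ω)).sum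

/-- The simple processes `L n` approximate `Z` on `[0,T]`: `∫_0^T |L n - Z|^2 ds → 0` in
probability. -/
def Approximates {𝓕 : Filtration ℝ≥0 mΩ} (P : Measure Ω) (T : ℝ≥0) (L : ℕ → List (Block 𝓕))
    (Z : ℝ≥0 → Ω → ℝ) : Prop :=
  ∀ ε : ℝ≥0∞, 0 < ε → Tendsto (fun n => P {ω | ε ≤ ∫⁻ s in Set.Ioc (0 : ℝ) T,
    ENNReal.ofReal ((simpleProc (L n) s.toNNReal ω - Z s.toNNReal ω) ^ 2)}) atTop (𝓝 0)

/-- `I` is the Ito integral process `t ↦ ∫_0^t Z dB` on `[0,T]`: it is adapted with almost surely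
continuous paths, `Z` can be approximated by simple processes, and along every approximating
sequence the integrals of the simple processes converge in probability to `I t`. -/
structure IsItoIntegral (𝓕 : Filtration ℝ≥0 mΩ) (P : Measure Ω) (T : ℝ≥0)
    (B Z I : ℝ≥0 → Ω → ℝ) : Prop where
  adapted : Adapted 𝓕 I
  cont : ∀ᵐ ω ∂P, ContinuousOn (fun t => I t ω) (Set.Iic T)
  exists_approx : ∃ L : ℕ → List (Block 𝓕), Approximates P T L Z
  tendsto_approx : ∀ L : ℕ → List (Block 𝓕), Approximates P T L Z → ∀ t ≤ T,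
    TendstoInMeasure P (fun n => simpleInt (L n) B t) atTop (I t)

/-- `(Y, (Z1, Z2))` solves
`Y t = ξ + ∫_t^T (Z1 s)^2 / 2 ds - ∫_t^T (Z1 dB1 + Z2 dB2)` on `[0,T]`. -/
structure IsSolution (𝓕 : Filtration ℝ≥0 mΩ) (P : Measure Ω) (T : ℝ≥0)
    (B1 B2 : ℝ≥0 → Ω → ℝ) (ξ : Ω → ℝ) (Y Z1 Z2 : ℝ≥0 → Ω → ℝ) : Prop where
  prog_Y : IsProgressive 𝓕 Y
  prog_Z1 : IsProgressive 𝓕 Z1
  prog_Z2 : IsProgressive 𝓕 Z2
  cont_Y : ∀ ω, ContinuousOn (fun t => Y t ω) (Set.Iic T)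
  sq_int : ∀ᵐ ω ∂P, IntegrableOn
    (fun s : ℝ => (Z1 s.toNNReal ω) ^ 2 + (Z2 s.toNNReal ω) ^ 2) (Set.Ioc (0 : ℝ) T)
  equation : ∃ I1 I2 : ℝ≥0 → Ω → ℝ, IsItoIntegral 𝓕 P T B1 Z1 I1 ∧ IsItoIntegral 𝓕 P T B2 Z2 I2 ∧
    ∀ᵐ ω ∂P, ∀ t ≤ T, Y t ω = ξ ω + (∫ s in (t : ℝ)..T, (Z1 s.toNNReal ω) ^ 2 / 2) -
      ((I1 T ω - I1 t ω) + (I2 T ω - I2 t ω))

/-- An adapted process is of class (D) on `[0,T]` if its values at the stopping times with values
in `[0,T]` form a uniformly integrable family. -/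
def IsClassD (𝓕 : Filtration ℝ≥0 mΩ) (P : Measure Ω) (T : ℝ≥0) (X : ℝ≥0 → Ω → ℝ) : Prop :=
  Adapted 𝓕 X ∧ UniformIntegrable
    (fun (τ : {τ : Ω → ℝ≥0 // IsStoppingTime 𝓕 (fun ω => (τ ω : WithTop ℝ≥0)) ∧ ∀ ω, τ ω ≤ T})
      (ω : Ω) => X (τ.1 ω) ω) 1 P

end Pool.Agent.Work.MP_dddec1_pr
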