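import Mathlib
import Pool.Agent.Work.MP_dddec1_pr.Defs

-- merged part: Pool.Agent.Work.MP_dddec1_pr.Exp
section
open MeasureTheory ProbabilityTheory Filter
open scoped NNReal ENNReal Topology

namespace Pool.Agent.Work.MP_dddec1_pr

variable {Ω : Type*} {mΩ : MeasurableSpace Ω}

/-- A Brownian motion with respect to a filtration, with all paths continuous. -/
structure FBM (𝓕 : Filtration ℝ≥0 mΩ) (P : Measure Ω) (B : ℝ≥0 → Ω → ℝ) : Prop where
  adapted : ∀ t, Measurable[𝓕 t] (B t)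
  cont : ∀ ω, Continuous (fun t => B t ω)
  law : ∀ s t, s ≤ t → P.map (fun ω => B t ω - B s ω) = gaussianReal 0 (t - s)
  indep : ∀ s t, s ≤ t →
    Indep (𝓕 s) (MeasurableSpace.comap (fun ω => B t ω - B s ω) Real.measurableSpace) P

variable {𝓕 : Filtration ℝ≥0 mΩ} {P : Measure Ω} {B : ℝ≥0 → Ω → ℝ}

lemma FBM.meas (hB : FBM 𝓕 P B) (t : ℝ≥0) : Measurable (B t) :=
  (hB.adapted t).mono (𝓕.le t) le_rfl

lemma FBM.meas_le (hB : FBM 𝓕 P B) {s t : ℝ≥0} (h : s ≤ t) : Measurable[𝓕 t] (B s) :=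
  (hB.adapted s).mono (𝓕.mono h) le_rfl

lemma gauss_exp (v : ℝ≥0) (k : ℝ) :
    ∫⁻ z, ENNReal.ofReal (Real.exp (k * z - k ^ 2 * v / 2)) ∂(gaussianReal 0 v) = 1 := by
  have h1 : ∀ z, Real.exp (k * z - k ^ 2 * v / 2) = Real.exp (k * z) * Real.exp (-(k ^ 2 * v / 2)) := by
    intro z; rw [← Real.exp_add]; ring_nf
  have hi : Integrable (fun z => Real.exp (k * z - k ^ 2 * v / 2)) (gaussianReal 0 v) := by
    simp_rw [h1]
    exact (integrable_exp_mul_gaussianReal k).mul_const _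
  rw [← ofReal_integral_eq_lintegral_ofReal hi (ae_of_all _ fun z => (Real.exp_pos _).le)]
  simp_rw [h1]
  rw [integral_mul_const]
  have h2 : ∫ z, Real.exp (k * z) ∂(gaussianReal 0 v) = Real.exp (0 * k + v * k ^ 2 / 2) := by
    have := congrFun (mgf_fun_id_gaussianReal (μ := 0) (v := v)) k
    simpa [mgf] using this
  rw [h2, ← Real.exp_add]
  have : 0 * k + v * k ^ 2 / 2 + -(k ^ 2 * v / 2) = 0 := by ring
  rw [this]; simp

/-- Freezing lemma. -/
lemma FBM.freeze [IsProbabilityMeasure P] (hB : FBM 𝓕 P B) {s t : ℝ≥0} (hst : s ≤ t)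
    {β : Type*} [MeasurableSpace β] {X : Ω → β} (hX : Measurable[𝓕 s] X)
    {f : β × ℝ → ℝ≥0∞} (hf : Measurable f) :
    ∫⁻ ω, f (X ω, B t ω - B s ω) ∂P =
      ∫⁻ ω, (∫⁻ z, f (X ω, z) ∂(gaussianReal 0 (t - s))) ∂P := by
  have hXm : Measurable X := hX.mono (𝓕.le s) le_rfl
  have hD : Measurable (fun ω => B t ω - B s ω) := (hB.meas t).sub (hB.meas s)
  have hind : IndepFun X (fun ω => B t ω - B s ω) P := by
    rw [IndepFun_iff_Indep]
    exact indep_of_indep_of_le_left (hB.indep s t hst) hX.comap_le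
  have hmap := (indepFun_iff_map_prod_eq_prod_map_map hXm.aemeasurable hD.aemeasurable).mp hind
  rw [hB.law s t hst] at hmap
  have h1 : ∫⁻ ω, f (X ω, B t ω - B s ω) ∂P =
      ∫⁻ p, f p ∂(P.map (fun ω => (X ω, B t ω - B s ω))) := by
    rw [lintegral_map hf (hXm.prodMk hD)]
  rw [h1, hmap, lintegral_prod _ hf.aemeasurable, lintegral_map (hf.lintegral_prod_right') hXm]

lemma FBM.exp_step [IsProbabilityMeasure P] (hB : FBM 𝓕 P B) {s t : ℝ≥0} (hst : s ≤ t)
    {H : Ω → ℝ≥0∞} (hH : Measurable[𝓕 s] H) {κ : Ω → ℝ} (hκ : Measurable[𝓕 s] κ) :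
    ∫⁻ ω, H ω * ENNReal.ofReal (Real.exp (κ ω * (B t ω - B s ω) - κ ω ^ 2 * ((t : ℝ) - s) / 2)) ∂P
      = ∫⁻ ω, H ω ∂P := by
  have hv : ((t - s : ℝ≥0) : ℝ) = (t : ℝ) - s := NNReal.coe_sub hst
  have := hB.freeze hst (X := fun ω => (H ω, κ ω)) (hH.prodMk hκ)
    (f := fun p : (ℝ≥0∞ × ℝ) × ℝ =>
      p.1.1 * ENNReal.ofReal (Real.exp (p.1.2 * p.2 - p.1.2 ^ 2 * ((t - s : ℝ≥0) : ℝ) / 2)))
    (by fun_prop)
  simp only [hv] at this
  rw [this]
  refine lintegral_congr fun ω => ?_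
  rw [lintegral_const_mul _ (by fun_prop), ← hv, gauss_exp, mul_one]

/-- The discrete exponential martingale identity along a grid. -/
lemma FBM.exp_grid [IsProbabilityMeasure P] (hB : FBM 𝓕 P B) (r : ℕ → ℝ≥0) (hr : Monotone r)
    {H : Ω → ℝ≥0∞} (hH : Measurable[𝓕 (r 0)] H) (κ : ℕ → Ω → ℝ)
    (hκ : ∀ j, Measurable[𝓕 (r j)] (κ j)) (m : ℕ) :
    ∫⁻ ω, H ω * ENNReal.ofReal (Real.exp (∑ j ∈ Finset.range m,
      (κ j ω * (B (r (j + 1)) ω - B (r j) ω) - κ j ω ^ 2 * ((r (j + 1) : ℝ) - r j) / 2))) ∂P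
      = ∫⁻ ω, H ω ∂P := by
  induction m with
  | zero => simp
  | succ m ih =>
    rw [← ih]
    have hm : Measurable[𝓕 (r m)] (fun ω => H ω * ENNReal.ofReal (Real.exp (∑ j ∈ Finset.range m,
      (κ j ω * (B (r (j + 1)) ω - B (r j) ω) - κ j ω ^ 2 * ((r (j + 1) : ℝ) - r j) / 2)))) := by
      refine (hH.mono (𝓕.mono (hr (Nat.zero_le m))) le_rfl).mul ?_
      refine ENNReal.measurable_ofReal.comp (Real.measurable_exp.comp ?_)
      refine Finset.measurable_fun_sum _ fun j hj => ?_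
      have hj' : j + 1 ≤ m := Finset.mem_range.mp hj
      have h1 : Measurable[𝓕 (r m)] (κ j) := (hκ j).mono (𝓕.mono (hr (by omega))) le_rfl
      have h2 := hB.meas_le (hr hj')
      have h3 := hB.meas_le (hr (show j ≤ m by omega))
      exact (h1.mul (h2.sub h3)).sub (((h1.pow_const 2).mul_const _).div_const _)
    rw [← hB.exp_step (hr (Nat.le_succ m)) hm (hκ m)]
    refine lintegral_congr fun ω => ?_
    rw [Finset.sum_range_succ, Real.exp_add, ENNReal.ofReal_mul (Real.exp_pos _).le, mul_assoc]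

/-- Plain stopping time with values in `ℝ≥0`. -/
def ST (𝓕 : Filtration ℝ≥0 mΩ) (ρ : Ω → ℝ≥0) : Prop := ∀ t, MeasurableSet[𝓕 t] {ω | ρ ω ≤ t}

lemma ST.of_isStoppingTime {ρ : Ω → ℝ≥0}
    (h : IsStoppingTime 𝓕 (fun ω => (ρ ω : WithTop ℝ≥0))) : ST 𝓕 ρ := by
  intro t
  have := h t
  simp only [WithTop.coe_le_coe] at this
  exact this

lemma ST.const (t : ℝ≥0) : ST 𝓕 (fun _ => t) := by
  intro s
  by_cases h : t ≤ s <;> simp [h]

lemma ST.inf {ρ σ : Ω → ℝ≥0} (hρ : ST 𝓕 ρ) (hσ : ST 𝓕 σ) : ST 𝓕 (fun ω => min (ρ ω) (σ ω)) := by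
  intro t
  have : {ω | min (ρ ω) (σ ω) ≤ t} = {ω | ρ ω ≤ t} ∪ {ω | σ ω ≤ t} := by
    ext ω; simp
  rw [this]; exact (hρ t).union (hσ t)

lemma ST.sup {ρ σ : Ω → ℝ≥0} (hρ : ST 𝓕 ρ) (hσ : ST 𝓕 σ) : ST 𝓕 (fun ω => max (ρ ω) (σ ω)) := by
  intro t
  have : {ω | max (ρ ω) (σ ω) ≤ t} = {ω | ρ ω ≤ t} ∩ {ω | σ ω ≤ t} := by
    ext ω; simp
  rw [this]; exact (hρ t).inter (hσ t)

lemma ST.measurable_of_le {ρ : Ω → ℝ≥0} (hρ : ST 𝓕 ρ) {u : ℝ≥0} (hu : ∀ ω, ρ ω ≤ u) :
    Measurable[𝓕 u] ρ := by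
  refine measurable_of_Iic fun x => ?_
  by_cases hx : x ≤ u
  · exact 𝓕.mono hx _ (hρ x)
  · have : ρ ⁻¹' Set.Iic x = Set.univ := by
      ext ω; simp only [Set.mem_preimage, Set.mem_Iic, Set.mem_univ, iff_true]
      exact (hu ω).trans (le_of_not_ge hx)
    rw [this]; exact MeasurableSet.univ

lemma ST.measurable {ρ : Ω → ℝ≥0} (hρ : ST 𝓕 ρ) : Measurable ρ :=
  measurable_of_Iic fun x => 𝓕.le x _ (hρ x)

lemma ST.measurableSet_lt {ρ : Ω → ℝ≥0} (hρ : ST 𝓕 ρ) (u : ℝ≥0) :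
    MeasurableSet[𝓕 u] {ω | ρ ω < u} := by
  have h := (hρ.inf (ST.const u)).measurable_of_le (u := u) (fun ω => min_le_right _ _)
  have : {ω | ρ ω < u} = (fun ω => Min.min (ρ ω) u) ⁻¹' Set.Iio u := by
    ext ω; simp
  rw [this]; exact h measurableSet_Iio

lemma prog_of_cont {X : ℝ≥0 → Ω → ℝ} (hX : ∀ t, Measurable[𝓕 t] (X t))
    (hc : ∀ ω, Continuous fun t => X t ω) : IsProgressive 𝓕 X :=
  (StronglyAdapted.isStronglyProgressive_of_continuous (f := 𝓕)
    (fun t => (hX t).stronglyMeasurable) hc).isProgressive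

lemma meas_stopped {X : ℝ≥0 → Ω → ℝ} (hX : IsProgressive 𝓕 X) {ρ : Ω → ℝ≥0} (hρ : ST 𝓕 ρ)
    {u : ℝ≥0} (hu : ∀ ω, ρ ω ≤ u) : Measurable[𝓕 u] (fun ω => X (ρ ω) ω) := by
  have h1 : @Measurable Ω (Set.Iic u × Ω) (𝓕 u) (Subtype.instMeasurableSpace.prod (𝓕 u))
      (fun ω => (⟨ρ ω, hu ω⟩, ω)) :=
    Measurable.prodMk (m := 𝓕 u) ((hρ.measurable_of_le hu).subtype_mk) measurable_id
  exact (hX u).comp h1

lemma FBM.prog (hB : FBM 𝓕 P B) : IsProgressive 𝓕 B := prog_of_cont hB.adapted hB.cont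

/-- the uniform grid on `[a,b]` with `m` steps -/
noncomputable def grid (a b : ℝ≥0) (m : ℕ) (l : ℕ) : ℝ≥0 := a + (b - a) * l / m

/-- number of grid points strictly below `x` -/
noncomputable def gridN (a b : ℝ≥0) (m : ℕ) (x : ℝ≥0) : ℕ := ⌈(x - a) * m / (b - a)⌉₊

lemma grid_mono (a b : ℝ≥0) (m : ℕ) : Monotone (grid a b m) := by
  intro l l' h
  unfold grid
  gcongr

lemma grid_zero (a b : ℝ≥0) (m : ℕ) : grid a b m 0 = a := by simp [grid]

lemma grid_lt_iff {a b x : ℝ≥0} (hab : a < b) (_hx : a ≤ x) {m : ℕ} (hm : 0 < m) (l : ℕ) :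
    grid a b m l < x ↔ l < gridN a b m x := by
  unfold grid gridN
  have h1 : (0 : ℝ≥0) < b - a := tsub_pos_of_lt hab
  have h2 : (0 : ℝ≥0) < m := by exact_mod_cast hm
  rw [Nat.lt_ceil, lt_div_iff₀ h1, ← lt_tsub_iff_left, div_lt_iff₀ h2, mul_comm]

lemma gridN_le {a b x : ℝ≥0} (hab : a < b) (hx : x ≤ b) (m : ℕ) : gridN a b m x ≤ m := by
  unfold gridN
  have h1 : (0 : ℝ≥0) < b - a := tsub_pos_of_lt hab
  rw [Nat.ceil_le, div_le_iff₀ h1, mul_comm]
  gcongr

lemma le_grid_gridN {a b x : ℝ≥0} (hab : a < b) (hx : a ≤ x) {m : ℕ} (hm : 0 < m) :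
    x ≤ grid a b m (gridN a b m x) := by
  by_contra h
  exact lt_irrefl _ ((grid_lt_iff hab hx hm _).mp (lt_of_not_ge h))

lemma grid_gridN_le {a b x : ℝ≥0} (hab : a < b) (hx : a ≤ x) {m : ℕ} (hm : 0 < m) :
    grid a b m (gridN a b m x) ≤ x + (b - a) / m := by
  rcases Nat.eq_zero_or_pos (gridN a b m x) with h | h
  · rw [h, grid_zero]; exact hx.trans le_self_add
  · obtain ⟨k, hk⟩ : ∃ k, gridN a b m x = k + 1 := ⟨_, (Nat.succ_pred_eq_of_pos h).symm⟩
    have := ((grid_lt_iff hab hx hm k).mpr (by omega)).le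
    rw [hk]
    calc grid a b m (k + 1) = grid a b m k + (b - a) / m := by
          unfold grid; push_cast; rw [mul_add, add_div, mul_one, add_assoc]
      _ ≤ _ := by gcongr

lemma grid_le {a b : ℝ≥0} (hab : a ≤ b) {m l : ℕ} (hl : l ≤ m) : grid a b m l ≤ b := by
  rcases Nat.eq_zero_or_pos m with h | h
  · subst h; simp [grid, hab]
  · have h2 : (0 : ℝ≥0) < m := by exact_mod_cast h
    calc grid a b m l ≤ grid a b m m := grid_mono a b m hl
      _ = b := by
        unfold grid; rw [mul_div_assoc, div_self h2.ne', mul_one, add_tsub_cancel_of_le hab]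

lemma tendsto_grid {a b x : ℝ≥0} (hab : a < b) (hx : a ≤ x) :
    Tendsto (fun m => grid a b m (gridN a b m x)) atTop (𝓝 x) := by
  have h1 : Tendsto (fun m : ℕ => x + (b - a) / m) atTop (𝓝 (x + 0)) :=
    tendsto_const_nhds.add (tendsto_const_div_atTop_nhds_zero_nat _)
  rw [add_zero] at h1
  refine tendsto_of_tendsto_of_tendsto_of_le_of_le' tendsto_const_nhds h1 ?_ ?_
  · filter_upwards [eventually_gt_atTop 0] with m hm using le_grid_gridN hab hx hm
  · filter_upwards [eventually_gt_atTop 0] with m hm using grid_gridN_le hab hx hm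

lemma grid_telescope {a b x : ℝ≥0} (hab : a < b) (hx : a ≤ x) (hxb : x ≤ b) {m : ℕ} (hm : 0 < m)
    (f : ℝ≥0 → ℝ) :
    ∑ l ∈ Finset.range m, (if grid a b m l < x then f (grid a b m (l + 1)) - f (grid a b m l)
      else 0) = f (grid a b m (gridN a b m x)) - f a := by
  simp_rw [grid_lt_iff hab hx hm]
  rw [← Finset.sum_filter]
  have : (Finset.range m).filter (fun l => l < gridN a b m x) = Finset.range (gridN a b m x) := by
    ext l
    have := gridN_le hab hxb m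
    simp only [Finset.mem_filter, Finset.mem_range]
    omega
  rw [this, Finset.sum_range_sub (fun l => f (grid a b m l)), grid_zero]

/-- Optional stopping inequality for the exponential martingale. -/
lemma FBM.exp_stop [IsProbabilityMeasure P] (hB : FBM 𝓕 P B) {a b : ℝ≥0} (hab : a < b)
    {ρ : Ω → ℝ≥0} (hρ : ST 𝓕 ρ) (h1 : ∀ ω, a ≤ ρ ω) (h2 : ∀ ω, ρ ω ≤ b)
    {H : Ω → ℝ≥0∞} (hH : Measurable[𝓕 a] H) (hH' : ∀ ω, H ω ≠ ∞) (c : ℝ) :
    ∫⁻ ω, H ω * ENNReal.ofReal (Real.exp (c * (B (ρ ω) ω - B a ω) - c ^ 2 * ((ρ ω : ℝ) - a) / 2)) ∂P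
      ≤ ∫⁻ ω, H ω ∂P := by
  set F : ℕ → Ω → ℝ≥0∞ := fun m ω => H ω * ENNReal.ofReal (Real.exp (∑ j ∈ Finset.range m,
      ((if grid a b m j < ρ ω then c else 0) * (B (grid a b m (j + 1)) ω - B (grid a b m j) ω) -
        (if grid a b m j < ρ ω then c else 0) ^ 2 *
          ((grid a b m (j + 1) : ℝ) - grid a b m j) / 2))) with hF
  have hκ : ∀ m j, Measurable[𝓕 (grid a b m j)] (fun ω => if grid a b m j < ρ ω then c else 0) := by
    intro m j
    refine Measurable.ite ?_ measurable_const measurable_const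
    have := (hρ (grid a b m j)).compl
    convert this using 1
    ext ω; simp
  have hFi : ∀ m, ∫⁻ ω, F m ω ∂P = ∫⁻ ω, H ω ∂P := fun m =>
    hB.exp_grid (grid a b m) (grid_mono a b m) (by rw [grid_zero]; exact hH) _ (hκ m) m
  have hFm : ∀ m, Measurable (F m) := by
    intro m
    refine (hH.mono (𝓕.le _) le_rfl).mul ?_
    refine ENNReal.measurable_ofReal.comp (Real.measurable_exp.comp ?_)
    refine Finset.measurable_fun_sum _ fun j _ => ?_
    have h1 : Measurable (fun ω => if grid a b m j < ρ ω then c else 0) :=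
      (hκ m j).mono (𝓕.le _) le_rfl
    exact (h1.mul ((hB.meas _).sub (hB.meas _))).sub (((h1.pow_const 2).mul_const _).div_const _)
  have hlim : ∀ ω, Tendsto (fun m => F m ω) atTop (𝓝 (H ω * ENNReal.ofReal
      (Real.exp (c * (B (ρ ω) ω - B a ω) - c ^ 2 * ((ρ ω : ℝ) - a) / 2)))) := by
    intro ω
    set f : ℝ≥0 → ℝ := fun t => c * B t ω - c ^ 2 * (t : ℝ) / 2 with hf
    have hfc : Continuous f := by
      have := hB.cont ω
      fun_prop
    have h3 : Tendsto (fun m => f (grid a b m (gridN a b m (ρ ω))) - f a) atTop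
        (𝓝 (f (ρ ω) - f a)) :=
      ((hfc.tendsto _).comp (tendsto_grid hab (h1 ω))).sub_const _
    have h4 : f (ρ ω) - f a = c * (B (ρ ω) ω - B a ω) - c ^ 2 * ((ρ ω : ℝ) - a) / 2 := by
      simp only [hf]; ring
    rw [h4] at h3
    have h5 := ENNReal.Tendsto.const_mul (a := H ω)
      (ENNReal.tendsto_ofReal ((Real.continuous_exp.tendsto _).comp h3)) (Or.inr (hH' ω))
    refine h5.congr' ?_
    filter_upwards [eventually_gt_atTop 0] with m hm
    simp only [hF, Function.comp]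
    rw [← grid_telescope hab (h1 ω) (h2 ω) hm f]
    congr 3
    refine Finset.sum_congr rfl fun j _ => ?_
    split_ifs
    · simp only [hf]; ring
    · simp
  calc _ = ∫⁻ ω, liminf (fun m => F m ω) atTop ∂P :=
        lintegral_congr fun ω => (hlim ω).liminf_eq.symm
    _ ≤ liminf (fun m => ∫⁻ ω, F m ω ∂P) atTop := lintegral_liminf_le hFm
    _ = _ := by simp_rw [hFi]; exact liminf_const _

end Pool.Agent.Work.MP_dddec1_pr
end

-- merged part: Pool.Agent.Work.MP_dddec1_pr.Hit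
section
open MeasureTheory ProbabilityTheory Filter
open scoped NNReal ENNReal Topology

namespace Pool.Agent.Work.MP_dddec1_pr

variable {Ω : Type*} {mΩ : MeasurableSpace Ω}
variable {𝓕 : Filtration ℝ≥0 mΩ} {P : Measure Ω} {B : ℝ≥0 → Ω → ℝ}

lemma ofReal_integral_le_lintegral {μ : Measure Ω} {f : Ω → ℝ} (hf : Integrable f μ) :
    ENNReal.ofReal (∫ ω, f ω ∂μ) ≤ ∫⁻ ω, ENNReal.ofReal (f ω) ∂μ := by
  have h1 : Integrable (fun ω => max (f ω) 0) μ := hf.pos_part
  calc ENNReal.ofReal (∫ ω, f ω ∂μ) ≤ ENNReal.ofReal (∫ ω, max (f ω) 0 ∂μ) :=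
        ENNReal.ofReal_le_ofReal (integral_mono hf h1 fun ω => le_max_left _ _)
    _ = ∫⁻ ω, ENNReal.ofReal (max (f ω) 0) ∂μ :=
        ofReal_integral_eq_lintegral_ofReal h1 (ae_of_all _ fun ω => le_max_right _ _)
    _ = _ := lintegral_congr fun ω => by simp

lemma FBM.exp_stop_set [IsProbabilityMeasure P] (hB : FBM 𝓕 P B) {a b : ℝ≥0} (hab : a < b)
    {ρ : Ω → ℝ≥0} (hρ : ST 𝓕 ρ) (h1 : ∀ ω, a ≤ ρ ω) (h2 : ∀ ω, ρ ω ≤ b)
    {A : Set Ω} (hA : MeasurableSet[𝓕 a] A)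
    {H : Ω → ℝ} (hH : Measurable[𝓕 a] H) (c : ℝ) :
    ∫⁻ ω in A, ENNReal.ofReal (H ω *
        Real.exp (c * (B (ρ ω) ω - B a ω) - c ^ 2 * ((ρ ω : ℝ) - a) / 2)) ∂P
      ≤ ∫⁻ ω in A, ENNReal.ofReal (H ω) ∂P := by
  have hA' : MeasurableSet A := 𝓕.le a _ hA
  have := hB.exp_stop hab hρ h1 h2 (H := A.indicator fun ω => ENNReal.ofReal (H ω))
    ((ENNReal.measurable_ofReal.comp hH).indicator hA)
    (fun ω => by by_cases h : ω ∈ A <;> simp [h]) c
  rw [← lintegral_indicator hA', ← lintegral_indicator hA']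
  refine le_trans (le_of_eq (lintegral_congr fun ω => ?_)) this
  by_cases h : ω ∈ A
  · simp only [Set.indicator_of_mem h]
    rw [mul_comm (H ω), ENNReal.ofReal_mul (Real.exp_pos _).le, mul_comm]
  · simp [h]

lemma FBM.lin_stop_set [IsProbabilityMeasure P] (hB : FBM 𝓕 P B) {a b : ℝ≥0} (hab : a < b)
    {ρ : Ω → ℝ≥0} (hρ : ST 𝓕 ρ) (h1 : ∀ ω, a ≤ ρ ω) (h2 : ∀ ω, ρ ω ≤ b)
    {A : Set Ω} (hA : MeasurableSet[𝓕 a] A)
    {H : Ω → ℝ} (hH : Measurable[𝓕 a] H) (c C : ℝ)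
    (hH0 : ∀ ω ∈ A, 0 ≤ H ω ∧ H ω ≤ C)
    (hH1 : ∀ ω ∈ A, 0 ≤ H ω + c * (B (ρ ω) ω - B a ω) ∧ H ω + c * (B (ρ ω) ω - B a ω) ≤ C) :
    ∫⁻ ω in A, ENNReal.ofReal (H ω + c * (B (ρ ω) ω - B a ω)) ∂P
      ≤ ∫⁻ ω in A, ENNReal.ofReal (H ω) ∂P := by
  have hA' : MeasurableSet A := 𝓕.le a _ hA
  have hHm : Measurable H := hH.mono (𝓕.le a) le_rfl
  have hBρ : Measurable (fun ω => B (ρ ω) ω) :=
    (meas_stopped hB.prog hρ h2).mono (𝓕.le b) le_rfl
  set X : Ω → ℝ := fun ω => c * (B (ρ ω) ω - B a ω) with hX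
  have hXm : Measurable X := (hBρ.sub (hB.meas a)).const_mul c
  have hHi : IntegrableOn H A P := by
    refine Measure.integrableOn_of_bounded (M := C) (measure_ne_top _ _)
      hHm.aestronglyMeasurable ?_
    filter_upwards [ae_restrict_mem hA'] with ω hω
    rw [Real.norm_eq_abs, abs_of_nonneg (hH0 ω hω).1]; exact (hH0 ω hω).2
  have hXi : IntegrableOn X A P := by
    refine Measure.integrableOn_of_bounded (M := C) (measure_ne_top _ _)
      hXm.aestronglyMeasurable ?_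
    filter_upwards [ae_restrict_mem hA'] with ω hω
    rw [Real.norm_eq_abs, abs_le]
    have := hH0 ω hω
    have := hH1 ω hω
    constructor <;> simp only [hX] <;> linarith
  have key : ∫ ω in A, X ω ∂P ≤ 0 := by
    have hb : (0 : ℝ) < (b : ℝ) - a := by
      have : (a : ℝ) < b := by exact_mod_cast hab
      linarith
    have hε : ∀ ε : ℝ, 0 < ε → ∫ ω in A, X ω ∂P ≤ ε * (c ^ 2 * ((b : ℝ) - a) / 2) := by
      intro ε hε
      have e1 := hB.exp_stop_set hab hρ h1 h2 hA (H := fun _ => 1) measurable_const (ε * c)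
      simp only [one_mul, ENNReal.ofReal_one, lintegral_const, Measure.restrict_apply_univ] at e1
      set K : ℝ := (ε * c) ^ 2 * ((b : ℝ) - a) / 2 with hK
      have hK0 : 0 ≤ K := by positivity
      have e2 : ∀ ω, 1 + ε * X ω - K ≤ Real.exp (ε * c * (B (ρ ω) ω - B a ω) -
          (ε * c) ^ 2 * ((ρ ω : ℝ) - a) / 2) := by
        intro ω
        have h3 := Real.add_one_le_exp (ε * c * (B (ρ ω) ω - B a ω) -
          (ε * c) ^ 2 * ((ρ ω : ℝ) - a) / 2)
        have h4 : (ρ ω : ℝ) ≤ b := by exact_mod_cast h2 ω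
        have h5 : (ε * c) ^ 2 * ((ρ ω : ℝ) - a) / 2 ≤ K := by
          simp only [hK]; gcongr
        simp only [hX]
        linarith only [h3, h5]
      have hi : IntegrableOn (fun ω => 1 + ε * X ω - K) A P :=
        ((integrableOn_const (measure_ne_top _ _)).add (hXi.const_mul ε)).sub
          (integrableOn_const (measure_ne_top _ _))
      have e3 : ENNReal.ofReal (∫ ω in A, (1 + ε * X ω - K) ∂P) ≤ P A := by
        refine le_trans ?_ e1
        refine le_trans (ofReal_integral_le_lintegral hi) ?_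
        exact lintegral_mono fun ω => ENNReal.ofReal_le_ofReal (e2 ω)
      have e4 : ∫ ω in A, (1 + ε * X ω - K) ∂P ≤ P.real A := by
        rw [ENNReal.ofReal_le_iff_le_toReal (measure_ne_top _ _)] at e3
        exact e3
      have hi2 : IntegrableOn (fun ω => 1 + ε * X ω) A P :=
        (integrableOn_const (measure_ne_top _ _)).add (hXi.const_mul ε)
      rw [integral_sub hi2 (integrableOn_const (measure_ne_top _ _)),
        integral_add (integrable_const _) (hXi.const_mul ε),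
        integral_const_mul] at e4
      simp only [integral_const, smul_eq_mul, mul_one, measureReal_restrict_apply_univ] at e4
      have e5 : P.real A ≤ 1 := measureReal_le_one
      have e6 : ε * ∫ ω in A, X ω ∂P ≤ ε * (ε * (c ^ 2 * ((b : ℝ) - a) / 2)) := by
        have : ε * (ε * (c ^ 2 * ((b : ℝ) - a) / 2)) = K := by simp only [hK]; ring
        rw [this]
        linarith only [e4, hK0, e5, measureReal_nonneg (μ := P) (s := A), mul_nonneg_of_nonpos_of_nonpos (Mathlib.Tactic.Linarith.sub_nonpos_of_le hK0) (Mathlib.Tactic.Linarith.sub_nonpos_of_le e5)]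
      exact le_of_mul_le_mul_left e6 hε
    refine le_of_forall_pos_le_add fun δ hδ => ?_
    set M : ℝ := c ^ 2 * ((b : ℝ) - a) / 2 with hM
    have hM0 : 0 ≤ M := by positivity
    have := hε (δ / (M + 1)) (by positivity)
    refine this.trans ?_
    rw [zero_add, div_mul_eq_mul_div, div_le_iff₀ (by positivity)]
    linarith only [hδ]
  have i1 : ∫⁻ ω in A, ENNReal.ofReal (H ω + X ω) ∂P = ENNReal.ofReal (∫ ω in A, (H ω + X ω) ∂P) := by
    have hi3 : IntegrableOn (fun ω => H ω + X ω) A P := hHi.add hXi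
    rw [ofReal_integral_eq_lintegral_ofReal hi3]
    filter_upwards [ae_restrict_mem hA'] with ω hω using (hH1 ω hω).1
  have i2 : ∫⁻ ω in A, ENNReal.ofReal (H ω) ∂P = ENNReal.ofReal (∫ ω in A, H ω ∂P) := by
    rw [ofReal_integral_eq_lintegral_ofReal hHi]
    filter_upwards [ae_restrict_mem hA'] with ω hω using (hH0 ω hω).1
  show ∫⁻ ω in A, ENNReal.ofReal (H ω + X ω) ∂P ≤ _
  rw [i1, i2, integral_add hHi hXi]
  exact ENNReal.ofReal_le_ofReal (by linarith)

lemma lintegral_le_of_fibers {N : Ω → ℕ} (hN : Measurable N) {f g : Ω → ℝ≥0∞} {A : Set Ω}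
    (hA : MeasurableSet A)
    (h : ∀ n, ∫⁻ ω in A ∩ {ω | N ω = n}, f ω ∂P ≤ ∫⁻ ω in A ∩ {ω | N ω = n}, g ω ∂P) :
    ∫⁻ ω in A, f ω ∂P ≤ ∫⁻ ω in A, g ω ∂P := by
  have hU : A = ⋃ n, A ∩ {ω | N ω = n} := by ext ω; simp
  have hm : ∀ n, MeasurableSet (A ∩ {ω | N ω = n}) := fun n =>
    hA.inter (hN (measurableSet_singleton n))
  have hd : Pairwise (Function.onFun Disjoint fun n => A ∩ {ω | N ω = n}) := by
    intro n n' hn
    simp only [Function.onFun, Set.disjoint_left]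
    rintro ω ⟨_, h1⟩ ⟨_, h2⟩
    exact hn (h1.symm.trans h2)
  rw [hU, lintegral_iUnion hm hd, lintegral_iUnion hm hd]
  exact ENNReal.tsum_le_tsum h

/-- first time in `[a,b]` at which `G ≤ 0`, or `b` -/
noncomputable def hit (G : ℝ≥0 → ℝ) (a b : ℝ≥0) : ℝ≥0 :=
  sInf ({t | a ≤ t ∧ t ≤ b ∧ G t ≤ 0} ∪ {b})

section hit
variable {G : ℝ≥0 → ℝ} {a b : ℝ≥0}

lemma hit_mem (hG : Continuous G) :
    hit G a b ∈ ({t | a ≤ t ∧ t ≤ b ∧ G t ≤ 0} ∪ {b} : Set ℝ≥0) := by
  refine IsClosed.csInf_mem ?_ ⟨b, Or.inr rfl⟩ (OrderBot.bddBelow _)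
  refine IsClosed.union ?_ isClosed_singleton
  exact (isClosed_le continuous_const continuous_id).inter
    ((isClosed_le continuous_id continuous_const).inter (isClosed_le hG continuous_const))

lemma hit_le : hit G a b ≤ b := csInf_le (OrderBot.bddBelow _) (Or.inr rfl)

lemma le_hit (hab : a ≤ b) : a ≤ hit G a b := by
  refine le_csInf ⟨b, Or.inr rfl⟩ ?_
  rintro t (ht | ht)
  · exact ht.1
  · rw [Set.mem_singleton_iff.mp ht]; exact hab

lemma hit_le_of {t : ℝ≥0} (h1 : a ≤ t) (h2 : t ≤ b) (h3 : G t ≤ 0) : hit G a b ≤ t :=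
  csInf_le (OrderBot.bddBelow _) (Or.inl ⟨h1, h2, h3⟩)

lemma pos_of_lt_hit {t : ℝ≥0} (h1 : a ≤ t) (h2 : t < hit G a b) : 0 < G t := by
  by_contra h
  exact absurd (hit_le_of h1 (h2.le.trans hit_le) (le_of_not_gt h)) (not_le.mpr h2)

lemma hit_eq_left (hab : a ≤ b) (h : G a ≤ 0) : hit G a b = a :=
  le_antisymm (hit_le_of le_rfl hab h) (le_hit hab)

lemma nonneg_of_le_hit (hG : Continuous G) (h0 : 0 ≤ G a) {t : ℝ≥0} (h1 : a ≤ t)
    (h2 : t ≤ hit G a b) : 0 ≤ G t := by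
  rcases h1.eq_or_lt with h | h
  · rw [← h]; exact h0
  · have hc : IsClosed {u | 0 ≤ G u} := isClosed_le continuous_const hG
    have hs : Set.Ico a t ⊆ {u | 0 ≤ G u} := fun u hu =>
      (pos_of_lt_hit hu.1 (hu.2.trans_le h2)).le
    have := closure_minimal hs hc
    rw [closure_Ico h.ne] at this
    exact this ⟨h1, le_rfl⟩

lemma nonpos_hit (hG : Continuous G) (h : hit G a b < b) : G (hit G a b) ≤ 0 := by
  rcases hit_mem (a := a) (b := b) hG with h1 | h1
  · exact h1.2.2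
  · exact absurd (Set.mem_singleton_iff.mp h1) h.ne

end hit

lemma st_hit {G : ℝ≥0 → Ω → ℝ} {a b : ℝ≥0} (hab : a ≤ b) (hc : ∀ ω, Continuous fun t => G t ω)
    (hm : ∀ t, a ≤ t → Measurable[𝓕 t] (G t)) : ST 𝓕 (fun ω => hit (fun t => G t ω) a b) := by
  intro t
  by_cases hbt : b ≤ t
  · have : {ω | hit (fun t => G t ω) a b ≤ t} = Set.univ := by
      ext ω; simp only [Set.mem_ofPred_eq, Set.mem_univ, iff_true]; exact hit_le.trans hbt
    rw [this]; exact MeasurableSet.univ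
  by_cases hat : a ≤ t
  swap
  · have : {ω | hit (fun t => G t ω) a b ≤ t} = ∅ := by
      ext ω; simp only [Set.mem_ofPred_eq, Set.mem_empty_iff_false, iff_false]
      exact fun h => hat ((le_hit hab).trans h)
    rw [this]; exact @MeasurableSet.empty _ (𝓕 t)
  have htb : t < b := lt_of_not_ge hbt
  obtain ⟨D, hDc, hDd⟩ := TopologicalSpace.exists_countable_dense (Set.Icc a t)
  have : {ω | hit (fun t => G t ω) a b ≤ t} =
      ⋂ n : ℕ, ⋃ q ∈ D, {ω | G q ω < 1 / ((n : ℝ) + 1)} := by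
    ext ω
    simp only [Set.mem_ofPred_eq, Set.mem_iInter, Set.mem_iUnion, exists_prop]
    constructor
    · intro h n
      have h1 := nonpos_hit (hc ω) (h.trans_lt htb)
      have ho : IsOpen {x : Set.Icc a t | G x ω < 1 / ((n : ℝ) + 1)} :=
        isOpen_lt ((hc ω).comp continuous_subtype_val) continuous_const
      obtain ⟨q, hq1, hq2⟩ := hDd.inter_open_nonempty _ ho
        ⟨⟨_, le_hit hab, h⟩, lt_of_le_of_lt h1 (by positivity)⟩
      exact ⟨q, hq2, hq1⟩
    · intro h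
      obtain ⟨u, hu, hmin⟩ := (isCompact_Icc (a := a) (b := t)).exists_isMinOn ⟨a, le_rfl, hat⟩
        (hc ω).continuousOn
      have h1 : G u ω ≤ 0 := by
        refine le_of_forall_pos_le_add fun δ hδ => ?_
        obtain ⟨n, hn⟩ := exists_nat_one_div_lt hδ
        obtain ⟨q, _, hq⟩ := h n
        have : G u ω ≤ G q ω := hmin q.2
        linarith only [hn, hq, this]
      exact (hit_le_of hu.1 (hu.2.trans htb.le) h1).trans hu.2
  rw [this]
  refine MeasurableSet.iInter fun n => MeasurableSet.biUnion hDc fun q _ => ?_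
  exact measurableSet_lt ((hm q q.2.1).mono (𝓕.mono q.2.2) le_rfl) measurable_const

end Pool.Agent.Work.MP_dddec1_pr
end

-- merged part: Pool.Agent.Work.MP_dddec1_pr.Simple
section
open MeasureTheory ProbabilityTheory Filter
open scoped NNReal ENNReal Topology

namespace Pool.Agent.Work.MP_dddec1_pr

variable {Ω : Type*} {mΩ : MeasurableSpace Ω}
variable {𝓕 : Filtration ℝ≥0 mΩ} {P : Measure Ω} {B : ℝ≥0 → Ω → ℝ}

lemma exists_grid (D : Finset ℝ≥0) (t : ℝ≥0) (hD : ∀ d ∈ D, d ≤ t) :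
    ∃ (r : ℕ → ℝ≥0) (m : ℕ), Monotone r ∧ r 0 = 0 ∧ r m = t ∧ ∀ d ∈ D, ∃ j ≤ m, r j = d := by
  classical
  set E : Finset ℝ≥0 := insert 0 (insert t D) with hE
  obtain ⟨m, hm⟩ : ∃ m, E.card = m + 1 :=
    ⟨E.card - 1, (Nat.succ_pred_eq_of_pos (Finset.card_pos.mpr ⟨0, by simp [hE]⟩)).symm⟩
  set e := E.orderEmbOfFin hm with he
  have hr : ∀ d ∈ E, ∃ i, e i = d := fun d hd => by
    have : d ∈ Set.range e := by rw [he, Finset.range_orderEmbOfFin]; exact hd
    exact this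
  have hmem : ∀ i, e i ∈ E := fun i => Finset.orderEmbOfFin_mem E hm i
  refine ⟨fun j => e ⟨min j m, by omega⟩, m, ?_, ?_, ?_, ?_⟩
  · intro j j' h
    exact e.monotone (by simp only [Fin.mk_le_mk]; omega)
  · obtain ⟨i, hi⟩ := hr 0 (by simp [hE])
    refine le_antisymm ?_ zero_le
    rw [← hi]
    exact e.monotone (by rw [Fin.le_def]; simp)
  · obtain ⟨i, hi⟩ := hr t (by simp [hE])
    refine le_antisymm ?_ ?_
    · have := hmem ⟨min m m, by omega⟩
      simp only [hE, Finset.mem_insert] at this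
      rcases this with h | h | h
      · exact h.le.trans zero_le
      · exact h.le
      · exact hD _ h
    · rw [← hi]
      exact e.monotone (by rw [Fin.le_def]; have := i.2; simp; omega)
  · intro d hd
    obtain ⟨i, hi⟩ := hr d (by simp [hE, hd])
    refine ⟨i, by have := i.2; omega, ?_⟩
    rw [← hi]
    have := i.2
    exact congrArg e (Fin.ext (by simp only; omega))

lemma tele_mono {r : ℕ → ℝ≥0} (hr : Monotone r) (f : ℝ≥0 → ℝ) {q m : ℕ} (hq : q ≤ m) :
    ∑ j ∈ Finset.range m, (if r j < r q then f (r (j + 1)) - f (r j) else 0) = f (r q) - f (r 0) := by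
  rw [← Finset.sum_range_sub (fun j => f (r j)) q]
  symm
  refine (Finset.sum_subset_zero_on_sdiff (Finset.range_subset_range.mpr hq) ?_ ?_)
  · intro j hj
    simp only [Finset.mem_sdiff, Finset.mem_range, not_lt] at hj
    rw [if_neg (not_lt.mpr (hr hj.2))]
  · intro j hj
    have hj' : j + 1 ≤ q := Finset.mem_range.mp hj
    split_ifs with h
    · rfl
    · have h1 : r (j + 1) = r j := le_antisymm ((hr hj').trans (not_lt.mp h)) (hr (Nat.le_succ j))
      rw [h1, sub_self]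

/-- coefficient of a simple process on the grid cell starting at `x` -/
noncomputable def coef (L : List (Block 𝓕)) (t x : ℝ≥0) (ω : Ω) : ℝ :=
  (L.map fun b => if min b.u t ≤ x ∧ x < min b.v t then b.h ω else 0).sum

lemma measurable_coef (L : List (Block 𝓕)) (t x : ℝ≥0) : Measurable[𝓕 x] (coef L t x) := by
  induction L with
  | nil => exact measurable_const
  | cons b L ih =>
    have : coef (b :: L) t x = fun ω =>
        (if min b.u t ≤ x ∧ x < min b.v t then b.h ω else 0) + coef L t x ω := by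
      ext ω; simp [coef]
    rw [this]
    refine Measurable.add ?_ ih
    by_cases h : min b.u t ≤ x ∧ x < min b.v t
    · simp only [h, and_self, if_true]
      have hu : b.u ≤ x := by
        rcases min_le_iff.mp h.1 with h1 | h1
        · exact h1
        · exact absurd (h.2.trans_le (min_le_right _ _)) (not_lt.mpr h1)
      exact b.measurable_h.mono (𝓕.mono hu) le_rfl
    · simp only [h, if_false]; exact measurable_const

lemma simpleInt_eq_sum (L : List (Block 𝓕)) (B : ℝ≥0 → Ω → ℝ) (t : ℝ≥0) {r : ℕ → ℝ≥0} {m : ℕ}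
    (hr : Monotone r) (hL : ∀ b ∈ L, (∃ j ≤ m, r j = min b.u t) ∧ (∃ j ≤ m, r j = min b.v t))
    (ω : Ω) :
    simpleInt L B t ω = ∑ j ∈ Finset.range m, coef L t (r j) ω * (B (r (j + 1)) ω - B (r j) ω) := by
  induction L with
  | nil => simp [simpleInt, coef]
  | cons b L ih =>
    have h1 : simpleInt (b :: L) B t ω =
        b.h ω * (B (min b.v t) ω - B (min b.u t) ω) + simpleInt L B t ω := by simp [simpleInt]
    have h2 : ∀ x, coef (b :: L) t x ω =
        (if min b.u t ≤ x ∧ x < min b.v t then b.h ω else 0) + coef L t x ω := by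
      intro x; simp [coef]
    rw [h1, ih (fun b' hb' => hL b' (List.mem_cons_of_mem _ hb'))]
    simp_rw [h2, add_mul, Finset.sum_add_distrib]
    congr 1
    obtain ⟨⟨p, hp, hp'⟩, ⟨q, hq, hq'⟩⟩ := hL b List.mem_cons_self
    have hpq : r p ≤ r q := by rw [hp', hq']; exact min_le_min_right _ b.u_le_v
    rw [← hp', ← hq']
    have e1 := tele_mono hr (fun x => B x ω) hp
    have e2 := tele_mono hr (fun x => B x ω) hq
    have e3 : B (r q) ω - B (r p) ω = (B (r q) ω - B (r 0) ω) - (B (r p) ω - B (r 0) ω) := by ring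
    rw [e3, ← e1, ← e2, ← Finset.sum_sub_distrib, Finset.mul_sum]
    refine Finset.sum_congr rfl fun j _ => ?_
    by_cases c1 : r j < r p
    · have c2 : r j < r q := c1.trans_le hpq
      simp [c1, c2, not_le.mpr c1]
    · by_cases c2 : r j < r q
      · simp [c1, c2, not_lt.mp c1]
      · simp [c1, c2]

lemma simpleProc_eq_coef (L : List (Block 𝓕)) (t : ℝ≥0) {r : ℕ → ℝ≥0} {m : ℕ}
    (hr : Monotone r) (hm : r m = t)
    (hL : ∀ b ∈ L, (∃ j ≤ m, r j = min b.u t) ∧ (∃ j ≤ m, r j = min b.v t))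
    {j : ℕ} (hj : j < m) {s : ℝ≥0} (h1 : r j < s) (h2 : s ≤ r (j + 1)) (ω : Ω) :
    simpleProc L s ω = coef L t (r j) ω := by
  unfold simpleProc coef
  congr 1
  refine List.map_congr_left fun b hb => ?_
  obtain ⟨⟨p, hp, hp'⟩, ⟨q, hq, hq'⟩⟩ := hL b hb
  have hst : s ≤ t := h2.trans (hm ▸ hr hj)
  have : (b.u < s ∧ s ≤ b.v) ↔ (min b.u t ≤ r j ∧ r j < min b.v t) := by
    constructor
    · rintro ⟨a1, a2⟩
      refine ⟨?_, h1.trans_le (le_min a2 hst)⟩
      rw [← hp']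
      have : r p < r (j + 1) := by
        rw [hp']; exact (min_le_left _ _).trans_lt (a1.trans_le h2)
      have : p < j + 1 := hr.reflect_lt this
      exact hr (by omega)
    · rintro ⟨a1, a2⟩
      constructor
      · rcases min_le_iff.mp a1 with h | h
        · exact h.trans_lt h1
        · exact absurd (h1.trans_le hst) (not_lt.mpr h)
      · rw [← hq'] at a2
        have : j < q := hr.reflect_lt a2
        exact h2.trans ((hr this).trans (hq'.le.trans (min_le_left _ _)))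
  simp only [this]

lemma lintegral_Ioc_grid {r : ℕ → ℝ≥0} (hr : Monotone r) (F : ℝ → ℝ≥0∞) (m : ℕ) :
    ∫⁻ s in Set.Ioc (r 0 : ℝ) (r m), F s =
      ∑ j ∈ Finset.range m, ∫⁻ s in Set.Ioc (r j : ℝ) (r (j + 1)), F s := by
  induction m with
  | zero => simp
  | succ m ih =>
    rw [Finset.sum_range_succ, ← ih, ← lintegral_union measurableSet_Ioc
      (Set.Ioc_disjoint_Ioc_of_le le_rfl), Set.Ioc_union_Ioc_eq_Ioc]
    · exact_mod_cast hr (Nat.zero_le m)
    · exact_mod_cast hr (Nat.le_succ m)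

lemma measurable_simpleInt (hB : FBM 𝓕 P B) (L : List (Block 𝓕)) (t : ℝ≥0) :
    Measurable (simpleInt L B t) := by
  induction L with
  | nil => exact measurable_const
  | cons b L ih =>
    have : simpleInt (b :: L) B t = fun ω =>
        b.h ω * (B (min b.v t) ω - B (min b.u t) ω) + simpleInt L B t ω := by
      ext ω; simp [simpleInt]
    rw [this]
    exact ((b.measurable_h.mono (𝓕.le _) le_rfl).mul ((hB.meas _).sub (hB.meas _))).add ih

/-- Exponential tail bound for simple integrals. -/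
lemma FBM.simple_tail [IsProbabilityMeasure P] (hB : FBM 𝓕 P B) (L : List (Block 𝓕))
    {t T : ℝ≥0} (ht : t ≤ T) (l a δ : ℝ) (hδ : 0 ≤ δ) :
    P {ω | a ≤ l * simpleInt L B t ω ∧ ∫⁻ s in Set.Ioc (0 : ℝ) T,
      ENNReal.ofReal ((simpleProc L s.toNNReal ω) ^ 2) < ENNReal.ofReal δ} ≤
      ENNReal.ofReal (Real.exp (-a + l ^ 2 * δ / 2)) := by
  classical
  obtain ⟨r, m, hr, h0, hm, hD⟩ := exists_grid
    ((L.map fun b => min b.u t).toFinset ∪ (L.map fun b => min b.v t).toFinset) t (by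
      intro d hd
      simp only [Finset.mem_union, List.mem_toFinset, List.mem_map] at hd
      rcases hd with ⟨b, _, rfl⟩ | ⟨b, _, rfl⟩ <;> exact min_le_right _ _)
  have hL : ∀ b ∈ L, (∃ j ≤ m, r j = min b.u t) ∧ (∃ j ≤ m, r j = min b.v t) := by
    intro b hb
    constructor <;> apply hD <;>
      simp only [Finset.mem_union, List.mem_toFinset, List.mem_map]
    · exact Or.inl ⟨b, hb, rfl⟩
    · exact Or.inr ⟨b, hb, rfl⟩
  have hE := hB.exp_grid r hr (H := fun _ => 1) measurable_const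
    (fun j ω => l * coef L t (r j) ω) (fun j => (measurable_coef L t (r j)).const_mul l) m
  simp only [one_mul, lintegral_const, measure_univ] at hE
  set G : Ω → ℝ≥0∞ := fun ω => ENNReal.ofReal (Real.exp (∑ j ∈ Finset.range m,
    (l * coef L t (r j) ω * (B (r (j + 1)) ω - B (r j) ω) -
      (l * coef L t (r j) ω) ^ 2 * ((r (j + 1) : ℝ) - r j) / 2))) with hG
  have hGm : Measurable G := by
    refine ENNReal.measurable_ofReal.comp (Real.measurable_exp.comp ?_)
    refine Finset.measurable_fun_sum _ fun j _ => ?_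
    have h1 : Measurable (fun ω => l * coef L t (r j) ω) :=
      ((measurable_coef L t (r j)).mono (𝓕.le _) le_rfl).const_mul l
    exact (h1.mul ((hB.meas _).sub (hB.meas _))).sub (((h1.pow_const 2).mul_const _).div_const _)
  have hM := meas_ge_le_lintegral_div (μ := P) hGm.aemeasurable
    (ε := ENNReal.ofReal (Real.exp (a - l ^ 2 * δ / 2)))
    (by simp [Real.exp_pos]) ENNReal.ofReal_ne_top
  rw [hE, one_div, ← ENNReal.ofReal_inv_of_pos (Real.exp_pos _), ← Real.exp_neg] at hM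
  have e0 : -(a - l ^ 2 * δ / 2) = -a + l ^ 2 * δ / 2 := by ring
  rw [e0] at hM
  refine le_trans (measure_mono fun ω hω => ?_) hM
  obtain ⟨hω1, hω2⟩ := hω
  simp only [Set.mem_ofPred_eq, hG]
  refine ENNReal.ofReal_le_ofReal (Real.exp_le_exp.mpr ?_)
  rw [simpleInt_eq_sum L B t hr hL ω, Finset.mul_sum] at hω1
  have hQ : ∑ j ∈ Finset.range m, (coef L t (r j) ω) ^ 2 * ((r (j + 1) : ℝ) - r j) ≤ δ := by
    have hd : ∀ j, (0 : ℝ) ≤ (r (j + 1) : ℝ) - r j := fun j => by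
      have : (r j : ℝ) ≤ r (j + 1) := by exact_mod_cast hr (Nat.le_succ j)
      linarith only [this]
    have h1 : ENNReal.ofReal (∑ j ∈ Finset.range m, (coef L t (r j) ω) ^ 2 *
        ((r (j + 1) : ℝ) - r j)) = ∫⁻ s in Set.Ioc (r 0 : ℝ) (r m),
        ENNReal.ofReal ((simpleProc L s.toNNReal ω) ^ 2) := by
      rw [lintegral_Ioc_grid hr, ENNReal.ofReal_sum_of_nonneg
        (fun j _ => mul_nonneg (sq_nonneg _) (hd j))]
      refine Finset.sum_congr rfl fun j hj => ?_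
      rw [setLIntegral_congr_fun (g := fun _ => ENNReal.ofReal ((coef L t (r j) ω) ^ 2))
        measurableSet_Ioc]
      · rw [setLIntegral_const, Real.volume_Ioc, ENNReal.ofReal_mul (sq_nonneg _)]
      · intro s hs
        simp only
        rw [simpleProc_eq_coef L t hr hm hL (Finset.mem_range.mp hj)
          (Real.lt_toNNReal_iff_coe_lt.mpr hs.1) (Real.toNNReal_le_iff_le_coe.mpr hs.2)]
    have h2 : ENNReal.ofReal (∑ j ∈ Finset.range m, (coef L t (r j) ω) ^ 2 *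
        ((r (j + 1) : ℝ) - r j)) ≤ ENNReal.ofReal δ := by
      rw [h1, h0, hm]
      refine le_trans (lintegral_mono_set (Set.Ioc_subset_Ioc_right ?_)) hω2.le
      exact_mod_cast ht
    exact (ENNReal.ofReal_le_ofReal_iff hδ).mp h2
  rw [Finset.sum_sub_distrib]
  have e1 : ∑ j ∈ Finset.range m, (l * coef L t (r j) ω) ^ 2 * ((r (j + 1) : ℝ) - r j) / 2 =
      l ^ 2 * (∑ j ∈ Finset.range m, (coef L t (r j) ω) ^ 2 * ((r (j + 1) : ℝ) - r j)) / 2 := by
    rw [Finset.mul_sum, Finset.sum_div]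
    exact Finset.sum_congr rfl fun j _ => by ring
  have e2 : ∑ j ∈ Finset.range m, l * coef L t (r j) ω * (B (r (j + 1)) ω - B (r j) ω) =
      ∑ j ∈ Finset.range m, l * (coef L t (r j) ω * (B (r (j + 1)) ω - B (r j) ω)) :=
    Finset.sum_congr rfl fun j _ => by ring
  rw [e1, e2]
  have := mul_le_mul_of_nonneg_left hQ (sq_nonneg l)
  linarith only [hω1, this]

lemma FBM.simple_small [IsProbabilityMeasure P] (hB : FBM 𝓕 P B) {ε : ℝ} (hε : 0 < ε)
    {η : ℝ≥0∞} (hη : 0 < η) : ∃ δ : ℝ, 0 < δ ∧ ∀ (L : List (Block 𝓕)) (t T : ℝ≥0), t ≤ T →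
      P {ω | ε ≤ |simpleInt L B t ω|} ≤ P {ω | ENNReal.ofReal δ ≤ ∫⁻ s in Set.Ioc (0 : ℝ) T,
        ENNReal.ofReal ((simpleProc L s.toNNReal ω) ^ 2)} + η := by
  have h1 : Tendsto (fun x : ℝ => ENNReal.ofReal (Real.exp (-x)) + ENNReal.ofReal (Real.exp (-x)))
      atTop (𝓝 (ENNReal.ofReal 0 + ENNReal.ofReal 0)) :=
    (ENNReal.tendsto_ofReal Real.tendsto_exp_neg_atTop_nhds_zero).add
      (ENNReal.tendsto_ofReal Real.tendsto_exp_neg_atTop_nhds_zero)
  simp only [ENNReal.ofReal_zero, add_zero] at h1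
  obtain ⟨x, hx1, hx0⟩ := ((h1.eventually (ge_mem_nhds hη)).and (eventually_gt_atTop 0)).exists
  refine ⟨ε ^ 2 / (2 * x), by positivity, fun L t T ht => ?_⟩
  set δ := ε ^ 2 / (2 * x) with hδ
  set l := 2 * x / ε with hl
  have hl0 : 0 < l := by positivity
  have e1 := hB.simple_tail L ht l (l * ε) δ (by positivity)
  have e2 := hB.simple_tail L ht (-l) (l * ε) δ (by positivity)
  have e3 : -(l * ε) + l ^ 2 * δ / 2 = -x := by simp only [hl, hδ]; field_simp; ring
  rw [neg_sq] at e2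
  rw [e3] at e1 e2
  refine le_trans ?_ (add_le_add le_rfl ((add_le_add e1 e2).trans hx1))
  refine le_trans (measure_mono ?_) ((measure_union_le _ _).trans
    (add_le_add le_rfl (measure_union_le _ _)))
  intro ω hω
  simp only [Set.mem_ofPred_eq, Set.mem_union] at hω ⊢
  by_cases h : ENNReal.ofReal δ ≤ ∫⁻ s in Set.Ioc (0 : ℝ) T,
        ENNReal.ofReal ((simpleProc L s.toNNReal ω) ^ 2)
  · exact Or.inl h
  · refine Or.inr ?_
    rcases le_abs.mp hω with h' | h'
    · exact Or.inl ⟨by linarith only [hl0, h', mul_nonneg_of_nonpos_of_nonpos (le_of_lt (Mathlib.Tactic.Linarith.sub_neg_of_lt hl0)) (Mathlib.Tactic.Linarith.sub_nonpos_of_le h')], not_le.mp h⟩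
    · exact Or.inr ⟨by linarith only [hl0, h', mul_nonneg_of_nonpos_of_nonpos (le_of_lt (Mathlib.Tactic.Linarith.sub_neg_of_lt hl0)) (Mathlib.Tactic.Linarith.sub_nonpos_of_le h')], not_le.mp h⟩

/-- negation of an elementary process -/
def Block.neg (b : Block 𝓕) : Block 𝓕 where
  u := b.u
  v := b.v
  h := fun ω => -b.h ω
  u_le_v := b.u_le_v
  measurable_h := b.measurable_h.neg
  bounded_h := by
    obtain ⟨C, hC⟩ := b.bounded_h
    exact ⟨C, fun ω => by rw [abs_neg]; exact hC ω⟩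

lemma simpleProc_sub (L L' : List (Block 𝓕)) (s : ℝ≥0) (ω : Ω) :
    simpleProc (L ++ L'.map Block.neg) s ω = simpleProc L s ω - simpleProc L' s ω := by
  unfold simpleProc
  rw [List.map_append, List.sum_append, sub_eq_add_neg, List.sum_neg, List.map_map, List.map_map]
  congr 2
  refine List.map_congr_left fun b _ => ?_
  simp only [Function.comp, Block.neg]
  split_ifs <;> simp

lemma simpleInt_sub (L L' : List (Block 𝓕)) (B : ℝ≥0 → Ω → ℝ) (t : ℝ≥0) (ω : Ω) :
    simpleInt (L ++ L'.map Block.neg) B t ω = simpleInt L B t ω - simpleInt L' B t ω := by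
  unfold simpleInt
  rw [List.map_append, List.sum_append, sub_eq_add_neg, List.sum_neg, List.map_map, List.map_map]
  congr 2
  refine List.map_congr_left fun b _ => ?_
  simp [Function.comp, Block.neg]

lemma measurable_simpleProc (L : List (Block 𝓕)) :
    Measurable (fun p : ℝ × Ω => simpleProc L p.1.toNNReal p.2) := by
  induction L with
  | nil => exact measurable_const
  | cons b L ih =>
    have : (fun p : ℝ × Ω => simpleProc (b :: L) p.1.toNNReal p.2) = fun p =>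
        (if b.u < p.1.toNNReal ∧ p.1.toNNReal ≤ b.v then b.h p.2 else 0) +
          simpleProc L p.1.toNNReal p.2 := by
      ext p; simp [simpleProc]
    rw [this]
    refine Measurable.add (Measurable.ite ?_ ?_ measurable_const) ih
    · have h1 : Measurable (fun p : ℝ × Ω => p.1.toNNReal) := by fun_prop
      have h2 : MeasurableSet {p : ℝ × Ω | b.u < p.1.toNNReal} := h1 measurableSet_Ioi
      have h3 : MeasurableSet {p : ℝ × Ω | p.1.toNNReal ≤ b.v} := h1 measurableSet_Iic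
      exact h2.inter h3
    · exact (b.measurable_h.mono (𝓕.le _) le_rfl).comp measurable_snd

/-- One good approximating sequence is enough. -/
lemma FBM.tendsto_of_approx [IsProbabilityMeasure P] (hB : FBM 𝓕 P B) {T : ℝ≥0}
    {Z : ℝ≥0 → Ω → ℝ} (hZ : ∀ ω, Measurable fun s : ℝ => Z s.toNNReal ω)
    {L L' : ℕ → List (Block 𝓕)} (hL : Approximates P T L Z) (hL' : Approximates P T L' Z)
    {t : ℝ≥0} (ht : t ≤ T) {J : Ω → ℝ}
    (hJ : TendstoInMeasure P (fun n => simpleInt (L n) B t) atTop J) :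
    TendstoInMeasure P (fun n => simpleInt (L' n) B t) atTop J := by
  refine tendstoInMeasure_of_ne_top fun ε hε hε' => ?_
  rw [ENNReal.tendsto_nhds_zero]
  intro η hη
  have hε2 : 0 < ε.toReal / 2 := half_pos (ENNReal.toReal_pos hε.ne' hε')
  have hη4 : 0 < η / 4 := ENNReal.div_pos hη.ne' (by simp)
  obtain ⟨δ, hδ, hs⟩ := hB.simple_small hε2 hη4
  have a1 := (ENNReal.tendsto_nhds_zero.mp (hL (ENNReal.ofReal (δ / 4)) (by simpa using hδ))) _ hη4
  have a2 := (ENNReal.tendsto_nhds_zero.mp (hL' (ENNReal.ofReal (δ / 4)) (by simpa using hδ))) _ hη4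
  have a3 := (ENNReal.tendsto_nhds_zero.mp (hJ (ENNReal.ofReal (ε.toReal / 2))
    (by simpa using hε2))) _ hη4
  filter_upwards [a1, a2, a3] with n b1 b2 b3
  have b4 := hs (L' n ++ (L n).map Block.neg) t T ht
  have b5 : P {ω | ENNReal.ofReal δ ≤ ∫⁻ s in Set.Ioc (0 : ℝ) T,
      ENNReal.ofReal ((simpleProc (L' n ++ (L n).map Block.neg) s.toNNReal ω) ^ 2)} ≤
      η / 4 + η / 4 := by
    refine le_trans (measure_mono ?_) ((measure_union_le _ _).trans (add_le_add b1 b2))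
    intro ω hω
    simp only [Set.mem_ofPred_eq, Set.mem_union] at hω ⊢
    by_contra hc
    push Not at hc
    obtain ⟨c1, c2⟩ := hc
    have m1 : Measurable (fun s : ℝ =>
        ENNReal.ofReal ((simpleProc (L n) s.toNNReal ω - Z s.toNNReal ω) ^ 2)) :=
      ENNReal.measurable_ofReal.comp ((((measurable_simpleProc (L n)).comp
        measurable_prodMk_right).sub (hZ ω)).pow_const 2)
    have m2 : Measurable (fun s : ℝ =>
        ENNReal.ofReal ((simpleProc (L' n) s.toNNReal ω - Z s.toNNReal ω) ^ 2)) :=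
      ENNReal.measurable_ofReal.comp ((((measurable_simpleProc (L' n)).comp
        measurable_prodMk_right).sub (hZ ω)).pow_const 2)
    have c3 : ∫⁻ s in Set.Ioc (0 : ℝ) T,
        ENNReal.ofReal ((simpleProc (L' n ++ (L n).map Block.neg) s.toNNReal ω) ^ 2) ≤
        2 * ((∫⁻ s in Set.Ioc (0 : ℝ) T,
          ENNReal.ofReal ((simpleProc (L n) s.toNNReal ω - Z s.toNNReal ω) ^ 2)) +
        ∫⁻ s in Set.Ioc (0 : ℝ) T,
          ENNReal.ofReal ((simpleProc (L' n) s.toNNReal ω - Z s.toNNReal ω) ^ 2)) := by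
      rw [← lintegral_add_left m1, ← lintegral_const_mul _ (m1.fun_add m2)]
      refine lintegral_mono fun s => ?_
      rw [simpleProc_sub, ← ENNReal.ofReal_add (sq_nonneg _) (sq_nonneg _),
        ← ENNReal.ofReal_ofNat 2, ← ENNReal.ofReal_mul (by norm_num)]
      refine ENNReal.ofReal_le_ofReal ?_
      linarith only [sq_nonneg (simpleProc (L n) s.toNNReal ω + simpleProc (L' n) s.toNNReal ω
        - 2 * Z s.toNNReal ω), sq_nonneg (simpleProc (L n) s.toNNReal ω + simpleProc (L' n) s.toNNReal ω - (2 : ℝ) * Z s.toNNReal ω)]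
    have c4 := ENNReal.add_lt_add c1 c2
    have c5 : (2 : ℝ≥0∞) * (ENNReal.ofReal (δ / 4) + ENNReal.ofReal (δ / 4)) = ENNReal.ofReal δ := by
      rw [← ENNReal.ofReal_add (by positivity) (by positivity), ← ENNReal.ofReal_ofNat 2,
        ← ENNReal.ofReal_mul (by norm_num)]
      congr 1; ring
    have c6 := (ENNReal.mul_lt_mul_iff_right (a := 2) (by simp) (by simp)).mpr c4
    rw [c5] at c6
    exact absurd (hω.trans c3) (not_le.mpr c6)
  have b6 : η / 4 + η / 4 + η / 4 + η / 4 = η := by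
    rw [← ENNReal.add_div, ← ENNReal.add_div, ← ENNReal.add_div]
    have : η + η + η + η = η * 4 := by ring
    rw [this, ENNReal.mul_div_cancel_right (by simp) (by simp)]
  rw [← b6]
  refine le_trans (measure_mono ?_) ((measure_union_le _ _).trans
    (add_le_add (b4.trans (add_le_add b5 le_rfl)) b3))
  intro ω hω
  simp only [Set.mem_ofPred_eq, Set.mem_union, simpleInt_sub] at hω ⊢
  by_contra hc
  push Not at hc
  obtain ⟨c1, c2⟩ := hc
  rw [edist_dist, ENNReal.ofReal_lt_ofReal_iff hε2, Real.dist_eq] at c2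
  rw [edist_dist, Real.dist_eq, ← ENNReal.ofReal_toReal hε',
    ENNReal.ofReal_le_ofReal_iff (abs_nonneg _)] at hω
  have := abs_sub_le (simpleInt (L' n) B t ω) (simpleInt (L n) B t ω) (J ω)
  linarith only [hω, c1, c2, this]

end Pool.Agent.Work.MP_dddec1_pr
end

-- merged part: Pool.Agent.Work.MP_dddec1_pr.Ito
section
open MeasureTheory ProbabilityTheory Filter
open scoped NNReal ENNReal Topology

namespace Pool.Agent.Work.MP_dddec1_pr

variable {Ω : Type*} {mΩ : MeasurableSpace Ω}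
variable {𝓕 : Filtration ℝ≥0 mΩ} {P : Measure Ω} {B : ℝ≥0 → Ω → ℝ}

lemma tsum_eq_range {f : ℕ → ℝ} {N : ℕ} (h : ∀ i, N ≤ i → f i = 0) :
    ∑' i, f i = ∑ i ∈ Finset.range N, f i :=
  tsum_eq_sum fun i hi => h i (by simpa using hi)

lemma measurable_tsum_fin {X : Type*} {m : MeasurableSpace X} {f : ℕ → X → ℝ}
    (hf : ∀ i, Measurable (f i)) (h : ∀ x, ∃ N, ∀ i, N ≤ i → f i x = 0) :
    Measurable (fun x => ∑' i, f i x) := by
  refine measurable_of_tendsto_metrizable (f := fun n x => ∑ i ∈ Finset.range n, f i x)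
    (fun n => Finset.measurable_fun_sum _ fun i _ => hf i) ?_
  rw [tendsto_pi_nhds]
  intro x
  obtain ⟨N, hN⟩ := h x
  refine tendsto_const_nhds.congr' ?_
  filter_upwards [eventually_ge_atTop N] with n hn
  exact tsum_eq_range fun i hi => hN i (hn.trans hi)

/-- Data of an integrand which is piecewise constant up to stopping times. -/
structure Pieces (𝓕 : Filtration ℝ≥0 mΩ) where
  s : ℕ → ℝ≥0
  τ : ℕ → Ω → ℝ≥0
  β : ℕ → Ω → ℝ
  lt : ∀ i, s i < s (i + 1)
  st : ∀ i, ST 𝓕 (τ i)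
  le1 : ∀ i ω, s i ≤ τ i ω
  le2 : ∀ i ω, τ i ω ≤ s (i + 1)
  meas : ∀ i, Measurable[𝓕 (s i)] (β i)
  bdd : ∀ i, ∃ C : ℝ, ∀ ω, |β i ω| ≤ C
  fin : ∀ ω, ∃ N, ∀ i, N ≤ i → β i ω = 0

namespace Pieces

variable (D : Pieces 𝓕)

/-- the integrand -/
noncomputable def Z (t : ℝ≥0) (ω : Ω) : ℝ :=
  ∑' i, if D.s i < t ∧ t ≤ D.τ i ω then D.β i ω else 0

/-- the integral -/
noncomputable def I (B : ℝ≥0 → Ω → ℝ) (t : ℝ≥0) (ω : Ω) : ℝ :=
  ∑' i, D.β i ω * (B (min (D.τ i ω) t) ω - B (min (D.s i) t) ω)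

/-- the quadratic variation -/
noncomputable def A (t : ℝ≥0) (ω : Ω) : ℝ :=
  ∑' i, D.β i ω ^ 2 * (((min (D.τ i ω) t : ℝ≥0) : ℝ) - (min (D.s i) t : ℝ≥0))

lemma mono : StrictMono D.s := strictMono_nat_of_lt_succ D.lt

lemma measβ (i : ℕ) : Measurable (D.β i) := (D.meas i).mono (𝓕.le _) le_rfl

lemma adapted_term {X : ℝ≥0 → Ω → ℝ} (hX : IsProgressive 𝓕 X) {γ : Ω → ℝ} (i : ℕ)
    (hγ : Measurable[𝓕 (D.s i)] γ) (t : ℝ≥0) :
    Measurable[𝓕 t] (fun ω => γ ω * (X (min (D.τ i ω) t) ω - X (min (D.s i) t) ω)) := by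
  by_cases h : D.s i ≤ t
  · refine (hγ.mono (𝓕.mono h) le_rfl).mul (Measurable.sub ?_ ?_)
    · exact meas_stopped hX ((D.st i).inf (ST.const t)) fun ω => min_le_right _ _
    · exact (hX.adapted _).mono (𝓕.mono (min_le_right _ _)) le_rfl
  · have h' := (not_le.mp h).le
    have : (fun ω => γ ω * (X (min (D.τ i ω) t) ω - X (min (D.s i) t) ω)) = fun _ => 0 := by
      ext ω
      rw [min_eq_right h', min_eq_right (h'.trans (D.le1 i ω)), sub_self, mul_zero]
    rw [this]; exact measurable_const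

lemma adapted_I (hB : FBM 𝓕 P B) (t : ℝ≥0) : Measurable[𝓕 t] (D.I B t) := by
  refine measurable_tsum_fin (fun i => D.adapted_term hB.prog i (D.meas i) t) fun ω => ?_
  obtain ⟨N, hN⟩ := D.fin ω
  exact ⟨N, fun i hi => by rw [hN i hi, zero_mul]⟩

lemma adapted_A (t : ℝ≥0) : Measurable[𝓕 t] (D.A t) := by
  have hX : IsProgressive 𝓕 (fun (t : ℝ≥0) (_ : Ω) => (t : ℝ)) :=
    prog_of_cont (fun _ => measurable_const) (fun _ => NNReal.continuous_coe)
  refine measurable_tsum_fin (fun i => D.adapted_term hX i ((D.meas i).pow_const 2) t) fun ω => ?_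
  obtain ⟨N, hN⟩ := D.fin ω
  exact ⟨N, fun i hi => by simp [hN i hi]⟩

lemma I_eq (B : ℝ≥0 → Ω → ℝ) {ω : Ω} {N : ℕ} (hN : ∀ i, N ≤ i → D.β i ω = 0) (t : ℝ≥0) :
    D.I B t ω = ∑ i ∈ Finset.range N, D.β i ω * (B (min (D.τ i ω) t) ω - B (min (D.s i) t) ω) :=
  tsum_eq_range fun i hi => by rw [hN i hi, zero_mul]

lemma A_eq {ω : Ω} {N : ℕ} (hN : ∀ i, N ≤ i → D.β i ω = 0) (t : ℝ≥0) :
    D.A t ω = ∑ i ∈ Finset.range N,
      D.β i ω ^ 2 * (((min (D.τ i ω) t : ℝ≥0) : ℝ) - (min (D.s i) t : ℝ≥0)) :=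
  tsum_eq_range fun i hi => by simp [hN i hi]

lemma Z_eq {ω : Ω} {N : ℕ} (hN : ∀ i, N ≤ i → D.β i ω = 0) (t : ℝ≥0) :
    D.Z t ω = ∑ i ∈ Finset.range N, if D.s i < t ∧ t ≤ D.τ i ω then D.β i ω else 0 :=
  tsum_eq_range fun i hi => by simp [hN i hi]

lemma cont_I (hB : FBM 𝓕 P B) (ω : Ω) : Continuous fun t => D.I B t ω := by
  obtain ⟨N, hN⟩ := D.fin ω
  simp_rw [D.I_eq B hN]
  have := hB.cont ω
  refine continuous_finsetSum _ fun i _ => continuous_const.mul (Continuous.sub ?_ ?_)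
  · exact this.comp (continuous_const.min continuous_id)
  · exact this.comp (continuous_const.min continuous_id)

lemma cont_A (ω : Ω) : Continuous fun t => D.A t ω := by
  obtain ⟨N, hN⟩ := D.fin ω
  simp_rw [D.A_eq hN]
  fun_prop

lemma prog_Z : IsProgressive 𝓕 D.Z := by
  intro u
  refine measurable_tsum_fin (f := fun i (p : Set.Iic u × Ω) =>
    if D.s i < p.1 ∧ p.1 ≤ D.τ i p.2 then D.β i p.2 else 0) (fun i => ?_) fun p => ?_
  · by_cases h : D.s i ≤ u
    · let _ : MeasurableSpace Ω := 𝓕 u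
      have h1 : Measurable (fun p : Set.Iic u × Ω => ((p.1 : ℝ≥0) : ℝ)) := by fun_prop
      have h2 : Measurable (fun p : Set.Iic u × Ω => ((min (D.τ i p.2) u : ℝ≥0) : ℝ)) :=
        (NNReal.continuous_coe.measurable.comp (((D.st i).inf (ST.const u)).measurable_of_le
          fun ω => min_le_right _ _)).comp measurable_snd
      refine Measurable.ite ?_ (((D.meas i).mono (𝓕.mono h) le_rfl).comp measurable_snd)
        measurable_const
      have : {p : Set.Iic u × Ω | D.s i < p.1 ∧ p.1 ≤ D.τ i p.2} =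
          {p | (D.s i : ℝ) < ((p.1 : ℝ≥0) : ℝ)} ∩
            {p | ((p.1 : ℝ≥0) : ℝ) ≤ ((min (D.τ i p.2) u : ℝ≥0) : ℝ)} := by
        ext p
        have : (p.1 : ℝ≥0) ≤ u := p.1.2
        simp only [Set.mem_ofPred_eq, Set.mem_inter_iff, NNReal.coe_lt_coe, NNReal.coe_le_coe,
          le_min_iff, this, and_true]
      rw [this]
      exact (measurableSet_lt measurable_const h1).inter (measurableSet_le h1 h2)
    · have : (fun p : Set.Iic u × Ω =>
          if D.s i < p.1 ∧ p.1 ≤ D.τ i p.2 then D.β i p.2 else 0) = fun _ => 0 := by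
        ext p
        have : (p.1 : ℝ≥0) ≤ u := p.1.2
        rw [if_neg fun hh => h (hh.1.le.trans this)]
      rw [this]; exact measurable_const
  · obtain ⟨N, hN⟩ := D.fin p.2
    exact ⟨N, fun i hi => by simp [hN i hi]⟩

lemma meas_Z : Measurable (fun p : ℝ × Ω => D.Z p.1.toNNReal p.2) := by
  refine measurable_tsum_fin (f := fun i (p : ℝ × Ω) =>
    if D.s i < p.1.toNNReal ∧ p.1.toNNReal ≤ D.τ i p.2 then D.β i p.2 else 0)
    (fun i => ?_) fun p => ?_
  · have h1 : Measurable (fun p : ℝ × Ω => ((p.1.toNNReal : ℝ≥0) : ℝ)) := by fun_prop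
    have h2 : Measurable (fun p : ℝ × Ω => ((D.τ i p.2 : ℝ≥0) : ℝ)) :=
      (NNReal.continuous_coe.measurable.comp (D.st i).measurable).comp measurable_snd
    refine Measurable.ite ?_ ((D.measβ i).comp measurable_snd) measurable_const
    exact (measurableSet_lt (measurable_const (a := (D.s i : ℝ))) h1).inter (measurableSet_le h1 h2)
  · obtain ⟨N, hN⟩ := D.fin p.2
    exact ⟨N, fun i hi => by simp [hN i hi]⟩

lemma Z_sq {ω : Ω} {N : ℕ} (hN : ∀ i, N ≤ i → D.β i ω = 0) (x : ℝ) :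
    D.Z x.toNNReal ω ^ 2 = ∑ i ∈ Finset.range N,
      (Set.Ioc (D.s i : ℝ) (D.τ i ω)).indicator (fun _ => D.β i ω ^ 2) x := by
  have hi : ∀ i, (D.s i < x.toNNReal ∧ x.toNNReal ≤ D.τ i ω) ↔ x ∈ Set.Ioc (D.s i : ℝ) (D.τ i ω) :=
    fun i => by rw [Real.lt_toNNReal_iff_coe_lt, Real.toNNReal_le_iff_le_coe, Set.mem_Ioc]
  rw [D.Z_eq hN]
  simp_rw [hi]
  by_cases h : ∃ i ∈ Finset.range N, x ∈ Set.Ioc (D.s i : ℝ) (D.τ i ω)
  · obtain ⟨i, hiN, hx⟩ := h
    have hne : ∀ j, j ≠ i → x ∉ Set.Ioc (D.s j : ℝ) (D.τ j ω) := by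
      intro j hj hxj
      rcases lt_or_gt_of_ne hj with h | h
      · have h1 : (D.τ j ω : ℝ) ≤ D.s i := by exact_mod_cast (D.le2 j ω).trans (D.mono.monotone h)
        linarith only [h1, hxj, hx, hxj.2, hx.1]
      · have h1 : (D.τ i ω : ℝ) ≤ D.s j := by exact_mod_cast (D.le2 i ω).trans (D.mono.monotone h)
        linarith only [h1, hxj, hx, hxj.1, hx.2]
    rw [Finset.sum_eq_single_of_mem i hiN fun j _ hj => if_neg (hne j hj),
      Finset.sum_eq_single_of_mem i hiN fun j _ hj => Set.indicator_of_notMem (hne j hj) _,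
      if_pos hx, Set.indicator_of_mem hx]
  · push Not at h
    rw [Finset.sum_eq_zero fun j hj => if_neg (h j hj),
      Finset.sum_eq_zero fun j hj => Set.indicator_of_notMem (h j hj) _]
    simp

lemma integrable_Z_sq (ω : Ω) : Integrable fun x : ℝ => D.Z x.toNNReal ω ^ 2 := by
  obtain ⟨N, hN⟩ := D.fin ω
  simp_rw [D.Z_sq hN]
  refine integrable_finsetSum _ fun i _ => ?_
  exact (integrableOn_const (by simp)).integrable_indicator measurableSet_Ioc

lemma integral_Z_sq (ω : Ω) {t t' : ℝ≥0} (h : t ≤ t') :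
    ∫ x in (t : ℝ)..t', D.Z x.toNNReal ω ^ 2 = D.A t' ω - D.A t ω := by
  obtain ⟨N, hN⟩ := D.fin ω
  have h' : (t : ℝ) ≤ t' := by exact_mod_cast h
  simp_rw [D.Z_sq hN, D.A_eq hN]
  rw [intervalIntegral.integral_of_le h', integral_finsetSum, ← Finset.sum_sub_distrib]
  · refine Finset.sum_congr rfl fun i _ => ?_
    rw [integral_indicator measurableSet_Ioc, Measure.restrict_restrict measurableSet_Ioc,
      Set.Ioc_inter_Ioc, setIntegral_const, Real.volume_real_Ioc, smul_eq_mul, ← mul_sub, mul_comm]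
    congr 1
    have h1 : (D.s i : ℝ) ≤ D.τ i ω := by exact_mod_cast D.le1 i ω
    simp only [min_def, max_def]
    split_ifs <;> linarith
  · intro i _
    exact ((integrableOn_const (by simp)).integrable_indicator measurableSet_Ioc).integrableOn

/-- one elementary piece of the approximating simple process -/
noncomputable def block (m i l : ℕ) : Block 𝓕 where
  u := grid (D.s i) (D.s (i + 1)) m l
  v := grid (D.s i) (D.s (i + 1)) m (l + 1)
  h := fun ω => if grid (D.s i) (D.s (i + 1)) m l < D.τ i ω then D.β i ω else 0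
  u_le_v := grid_mono _ _ _ (Nat.le_succ l)
  measurable_h := by
    refine Measurable.ite ?_ ((D.meas i).mono (𝓕.mono ?_) le_rfl) measurable_const
    · have := (D.st i (grid (D.s i) (D.s (i + 1)) m l)).compl
      convert this using 1
      ext ω; simp
    · exact le_self_add
  bounded_h := by
    obtain ⟨C, hC⟩ := D.bdd i
    refine ⟨C, fun ω => ?_⟩
    split_ifs
    · exact hC ω
    · exact (abs_zero.le.trans (abs_nonneg _)).trans (hC ω)

/-- the approximating simple process -/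
noncomputable def approx (m : ℕ) : List (Block 𝓕) :=
  (Finset.range m ×ˢ Finset.range m).toList.map fun p => D.block m p.1 p.2

/-- discretised stopping time -/
noncomputable def τd (m i : ℕ) (ω : Ω) : ℝ≥0 :=
  grid (D.s i) (D.s (i + 1)) m (gridN (D.s i) (D.s (i + 1)) m (D.τ i ω))

lemma sum_approx {m : ℕ} (hm : 0 < m) (ω : Ω) (f : ℝ≥0 → ℝ) :
    ((D.approx m).map fun b => b.h ω * (f b.v - f b.u)).sum =
      ∑ i ∈ Finset.range m, D.β i ω * (f (D.τd m i ω) - f (D.s i)) := by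
  unfold approx
  rw [List.map_map, Finset.sum_map_toList, Finset.sum_product]
  refine Finset.sum_congr rfl fun i _ => ?_
  unfold τd
  rw [← grid_telescope (D.lt i) (D.le1 i ω) (D.le2 i ω) hm f, Finset.mul_sum]
  refine Finset.sum_congr rfl fun l _ => ?_
  simp only [Function.comp, block]
  split_ifs <;> simp

lemma ind_sub {u v : ℝ≥0} (h : u ≤ v) (x : ℝ≥0) (c : ℝ) :
    c * ((if x ≤ v then (1 : ℝ) else 0) - if x ≤ u then 1 else 0) =
      if u < x ∧ x ≤ v then c else 0 := by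
  by_cases h1 : x ≤ u
  · simp [h1, h1.trans h, not_lt.mpr h1]
  · by_cases h2 : x ≤ v <;> simp [h1, h2, not_le.mp h1]

lemma simpleProc_approx {m : ℕ} (hm : 0 < m) (ω : Ω) (x : ℝ≥0) :
    simpleProc (D.approx m) x ω =
      ∑ i ∈ Finset.range m, if D.s i < x ∧ x ≤ D.τd m i ω then D.β i ω else 0 := by
  have := D.sum_approx hm ω (fun y => if x ≤ y then 1 else 0)
  unfold simpleProc
  rw [← List.map_congr_left (fun b _ => ind_sub b.u_le_v x (b.h ω)), this]
  refine Finset.sum_congr rfl fun i _ => ind_sub ?_ x _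
  exact le_self_add

lemma simpleInt_approx {m : ℕ} (hm : 0 < m) (B : ℝ≥0 → Ω → ℝ) (t : ℝ≥0) (ω : Ω) :
    simpleInt (D.approx m) B t ω =
      ∑ i ∈ Finset.range m, D.β i ω * (B (min (D.τd m i ω) t) ω - B (min (D.s i) t) ω) :=
  D.sum_approx hm ω (fun y => B (min y t) ω)

lemma tendsto_τd (i : ℕ) (ω : Ω) : Tendsto (fun m => D.τd m i ω) atTop (𝓝 (D.τ i ω)) :=
  tendsto_grid (D.lt i) (D.le1 i ω)

lemma sum_range_eq {f : ℕ → ℝ} {N m : ℕ} (h : ∀ i, N ≤ i → f i = 0) (hm : N ≤ m) :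
    ∑ i ∈ Finset.range m, f i = ∑ i ∈ Finset.range N, f i := by
  rw [← tsum_eq_range h, ← tsum_eq_range fun i hi => h i (hm.trans hi)]

lemma tendsto_simpleInt (hB : FBM 𝓕 P B) (t : ℝ≥0) (ω : Ω) :
    Tendsto (fun m => simpleInt (D.approx m) B t ω) atTop (𝓝 (D.I B t ω)) := by
  obtain ⟨N, hN⟩ := D.fin ω
  rw [D.I_eq B hN]
  have h1 : Tendsto (fun m => ∑ i ∈ Finset.range N,
      D.β i ω * (B (min (D.τd m i ω) t) ω - B (min (D.s i) t) ω)) atTop
      (𝓝 (∑ i ∈ Finset.range N, D.β i ω * (B (min (D.τ i ω) t) ω - B (min (D.s i) t) ω))) := by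
    refine tendsto_finsetSum _ fun i _ => Tendsto.const_mul _ (Tendsto.sub_const ?_ _)
    exact ((hB.cont ω).tendsto _).comp ((D.tendsto_τd i ω).min tendsto_const_nhds)
  refine h1.congr' ?_
  filter_upwards [eventually_ge_atTop N, eventually_gt_atTop 0] with m hm hm0
  rw [D.simpleInt_approx hm0, sum_range_eq (fun i hi => by rw [hN i hi, zero_mul]) hm]

lemma approximates [IsFiniteMeasure P] (T : ℝ≥0) : Approximates P T D.approx D.Z := by
  intro ε hε
  have hm : ∀ m, Measurable (fun p : ℝ × Ω => ENNReal.ofReal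
      ((simpleProc (D.approx m) p.1.toNNReal p.2 - D.Z p.1.toNNReal p.2) ^ 2)) := fun m =>
    ENNReal.measurable_ofReal.comp (((measurable_simpleProc _).sub D.meas_Z).pow_const 2)
  have := tendsto_measure_of_ae_tendsto_indicator_of_isFiniteMeasure (μ := P) atTop
    (A := ∅) (As := fun n => {ω | ε ≤ ∫⁻ s in Set.Ioc (0 : ℝ) T,
    ENNReal.ofReal ((simpleProc (D.approx n) s.toNNReal ω - D.Z s.toNNReal ω) ^ 2)})
    MeasurableSet.empty (fun n => measurableSet_le measurable_const (hm n).lintegral_prod_left')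
    (ae_of_all _ fun ω => ?_)
  · simpa using this
  obtain ⟨N, hN⟩ := D.fin ω
  set M : ℝ := ∑ i ∈ Finset.range N, |D.β i ω| with hM
  have hb : ∀ (c : ℕ → Prop) [DecidablePred c],
      |∑ i ∈ Finset.range N, if c i then D.β i ω else 0| ≤ M := by
    intro c _
    refine (Finset.abs_sum_le_sum_abs _ _).trans (Finset.sum_le_sum fun i _ => ?_)
    split_ifs <;> simp
  have hm' : ∀ n, Measurable (fun x : ℝ => ENNReal.ofReal
      ((simpleProc (D.approx n) x.toNNReal ω - D.Z x.toNNReal ω) ^ 2)) := fun n => by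
    have := (hm n).comp (measurable_prodMk_right (y := ω))
    simpa only [Function.comp_def] using this
  have h1 : Tendsto (fun n => ∫⁻ s in Set.Ioc (0 : ℝ) T,
      ENNReal.ofReal ((simpleProc (D.approx n) s.toNNReal ω - D.Z s.toNNReal ω) ^ 2)) atTop
      (𝓝 (∫⁻ _ in Set.Ioc (0 : ℝ) T, 0)) := by
    refine tendsto_lintegral_filter_of_dominated_convergence
      (fun _ => ENNReal.ofReal ((2 * M) ^ 2))
      (Eventually.of_forall fun n => hm' n) ?_ ?_ ?_
    · filter_upwards [eventually_ge_atTop N, eventually_gt_atTop 0] with m hm hm0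
      refine ae_of_all _ fun x => ENNReal.ofReal_le_ofReal ?_
      rw [D.simpleProc_approx hm0, sum_range_eq (fun i hi => by simp [hN i hi]) hm, D.Z_eq hN]
      refine sq_le_sq' ?_ ?_
      · linarith only [hb, abs_le.mp (hb fun i => D.s i < x.toNNReal ∧ x.toNNReal ≤ D.τd m i ω),
          abs_le.mp (hb fun i => D.s i < x.toNNReal ∧ x.toNNReal ≤ D.τ i ω)]
      · linarith only [hb, abs_le.mp (hb fun i => D.s i < x.toNNReal ∧ x.toNNReal ≤ D.τd m i ω),
          abs_le.mp (hb fun i => D.s i < x.toNNReal ∧ x.toNNReal ≤ D.τ i ω)]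
    · simp [ENNReal.mul_eq_top]
    · refine ae_of_all _ fun x => tendsto_const_nhds.congr' ?_
      have h2 : ∀ i, ∀ᶠ m in atTop, (x.toNNReal ≤ D.τd m i ω ↔ x.toNNReal ≤ D.τ i ω) := by
        intro i
        by_cases hx : x.toNNReal ≤ D.τ i ω
        · filter_upwards [eventually_gt_atTop 0] with m hm0
          exact ⟨fun _ => hx, fun _ => hx.trans (le_grid_gridN (D.lt i) (D.le1 i ω) hm0)⟩
        · filter_upwards [(D.tendsto_τd i ω).eventually (gt_mem_nhds (not_le.mp hx))] with m hm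
          exact ⟨fun h => absurd h (not_le.mpr hm), fun h => absurd h hx⟩
      filter_upwards [eventually_ge_atTop N, eventually_gt_atTop 0,
        (eventually_all_finset (Finset.range N)).mpr fun i _ => h2 i] with m hm hm0 h3
      rw [D.simpleProc_approx hm0, sum_range_eq (fun i hi => by simp [hN i hi]) hm, D.Z_eq hN,
        Finset.sum_congr rfl fun i hi => if_congr (and_congr_right fun _ => h3 i hi) rfl rfl]
      simp
  rw [lintegral_zero] at h1
  filter_upwards [h1.eventually (gt_mem_nhds hε)] with n hn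
  simp [hn]

theorem isItoIntegral [IsProbabilityMeasure P] (hB : FBM 𝓕 P B) (T : ℝ≥0) :
    IsItoIntegral 𝓕 P T B D.Z (D.I B) where
  adapted := D.adapted_I hB
  cont := ae_of_all _ fun ω => (D.cont_I hB ω).continuousOn
  exists_approx := ⟨D.approx, D.approximates T⟩
  tendsto_approx := fun _ hL _ ht =>
    hB.tendsto_of_approx (fun ω => D.meas_Z.comp (measurable_prodMk_right (y := ω))) (D.approximates T) hL ht
      (tendstoInMeasure_of_tendsto_ae
        (fun _ => (measurable_simpleInt hB _ _).aestronglyMeasurable)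
        (ae_of_all _ fun ω => D.tendsto_simpleInt hB _ ω))

end Pieces

lemma IsItoIntegral.congr {T : ℝ≥0} {B' Z I : ℝ≥0 → Ω → ℝ} (h : IsItoIntegral 𝓕 P T B Z I)
    (hB : ∀ᵐ ω ∂P, ∀ t, B t ω = B' t ω) : IsItoIntegral 𝓕 P T B' Z I where
  adapted := h.adapted
  cont := h.cont
  exists_approx := h.exists_approx
  tendsto_approx := fun L hL t ht => by
    refine (h.tendsto_approx L hL t ht).congr_left fun n => ?_
    filter_upwards [hB] with ω hω
    simp only [simpleInt, hω]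

end Pool.Agent.Work.MP_dddec1_pr
end

-- merged part: Pool.Agent.Work.MP_dddec1_pr.State
section
open scoped NNReal

namespace Pool.Agent.Work.MP_dddec1_pr

/-- the level of phase `n` -/
noncomputable def lvl (n : ℕ) : ℝ := 3 ^ (n / 2 + 1)

lemma lvl_pos (n : ℕ) : 0 < lvl n := by unfold lvl; positivity

/-- configurations allowed at the start of an interval -/
def Valid (n : ℕ) (y v : ℝ) : Prop :=
  if Even n then y = lvl n ∧ -lvl n < v ∧ v ≤ lvl n else v = -lvl n ∧ -lvl n ≤ y ∧ y < 3 * lvl n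

/-- configurations allowed inside an interval -/
def WValid (n : ℕ) (y v : ℝ) : Prop :=
  if Even n then y = lvl n ∧ -lvl n ≤ v ∧ v ≤ lvl n else v = -lvl n ∧ -lvl n ≤ y ∧ y ≤ 3 * lvl n

/-- the potential -/
noncomputable def pot (n : ℕ) (y v : ℝ) : ℝ :=
  (5 / 4) ^ (n / 2) * (if Even n then Real.exp (lvl n) * (5 - 4 * v / lvl n)
    else 8 * Real.exp y + Real.exp (lvl n))

open Classical in
/-- the next phase -/
noncomputable def nxt (n : ℕ) (y v : ℝ) : ℕ :=
  if (Even n ∧ v = -lvl n) ∨ (¬ Even n ∧ y = 3 * lvl n) then n + 1 else n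

/-- distance to the barriers -/
noncomputable def gap (n : ℕ) (y v : ℝ) : ℝ :=
  if Even n then min (v + lvl n) (lvl n - v) else min (y + lvl n) (3 * lvl n - y)

lemma Valid.weak {n : ℕ} {y v : ℝ} (h : Valid n y v) : WValid n y v := by
  unfold Valid at h; unfold WValid
  split_ifs at h ⊢
  · exact ⟨h.1, h.2.1.le, h.2.2⟩
  · exact ⟨h.1, h.2.1, h.2.2.le⟩

lemma WValid.gap_nonneg {n : ℕ} {y v : ℝ} (h : WValid n y v) : 0 ≤ gap n y v := by
  unfold WValid at h; unfold gap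
  split_ifs at h ⊢
  · exact le_min (by linarith [h.2.1]) (by linarith [h.2.2])
  · exact le_min (by linarith [h.2.1]) (by linarith [h.2.2])

lemma lvl_succ_even {n : ℕ} (h : Even n) : lvl (n + 1) = lvl n := by
  obtain ⟨k, rfl⟩ := h
  unfold lvl
  congr 2; omega

lemma lvl_succ_odd {n : ℕ} (h : ¬ Even n) : lvl (n + 1) = 3 * lvl n := by
  obtain ⟨k, rfl⟩ := Nat.not_even_iff_odd.mp h
  unfold lvl
  rw [show (2 * k + 1 + 1) / 2 = (2 * k + 1) / 2 + 1 by omega]; ring

lemma le_nxt (n : ℕ) (y v : ℝ) : n ≤ nxt n y v := by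
  unfold nxt; split_ifs <;> omega

lemma WValid.valid_nxt {n : ℕ} {y v : ℝ} (h : WValid n y v) : Valid (nxt n y v) y v := by
  have hL := lvl_pos n
  unfold WValid at h
  unfold nxt
  by_cases he : Even n
  · rw [if_pos he] at h
    by_cases hv : v = -lvl n
    · rw [if_pos (Or.inl ⟨he, hv⟩)]
      unfold Valid
      rw [if_neg (by rw [Nat.even_add_one]; exact not_not.mpr he), lvl_succ_even he]
      exact ⟨hv, by linarith only [h, hL, h.1], by linarith [h.1]⟩
    · rw [if_neg (by tauto)]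
      unfold Valid
      rw [if_pos he]
      exact ⟨h.1, lt_of_le_of_ne h.2.1 (Ne.symm hv), h.2.2⟩
  · rw [if_neg he] at h
    by_cases hy : y = 3 * lvl n
    · rw [if_pos (Or.inr ⟨he, hy⟩)]
      unfold Valid
      rw [if_pos (by rw [Nat.even_add_one]; exact he), lvl_succ_odd he]
      exact ⟨hy, by linarith only [h, hL, h.1], by linarith [h.1]⟩
    · rw [if_neg (by tauto)]
      unfold Valid
      rw [if_neg he]
      exact ⟨h.1, h.2.1, lt_of_le_of_ne h.2.2 hy⟩

lemma WValid.pot_nxt {n : ℕ} {y v : ℝ} (h : WValid n y v) : pot (nxt n y v) y v ≤ pot n y v := by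
  have hL := lvl_pos n
  unfold WValid at h
  unfold nxt
  split_ifs with hc
  swap
  · exact le_rfl
  rcases hc with ⟨he, hv⟩ | ⟨he, hy⟩
  · rw [if_pos he] at h
    unfold pot
    rw [if_neg (by rw [Nat.even_add_one]; exact not_not.mpr he), if_pos he, lvl_succ_even he,
      show (n + 1) / 2 = n / 2 by obtain ⟨k, rfl⟩ := he; omega, hv, h.1]
    refine le_of_eq ?_
    field_simp
    ring
  · rw [if_neg he] at h
    unfold pot
    rw [if_pos (by rw [Nat.even_add_one]; exact he), if_neg he, lvl_succ_odd he,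
      show (n + 1) / 2 = n / 2 + 1 by obtain ⟨k, rfl⟩ := Nat.not_even_iff_odd.mp he; omega,
      hy, h.1, pow_succ, mul_assoc]
    refine mul_le_mul_of_nonneg_left ?_ (by positivity)
    have e1 : (5 - 4 * -lvl n / (3 * lvl n)) = 19 / 3 := by field_simp; ring
    rw [e1]
    have := Real.exp_pos (3 * lvl n)
    have := Real.exp_pos (lvl n)
    linarith

lemma WValid.exp_le_pot {n : ℕ} {y v : ℝ} (h : WValid n y v) {z : ℝ} (hz : z = y ∨ z = v) :
    (5 / 4) ^ (n / 2) * Real.exp |z| ≤ pot n y v ∧ |z| ≤ 3 * lvl n := by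
  have hL := lvl_pos n
  unfold WValid at h
  unfold pot
  by_cases he : Even n
  · rw [if_pos he] at h
    rw [if_pos he]
    have h1 : |z| ≤ lvl n := by
      rcases hz with rfl | rfl
      · rw [h.1, abs_of_pos hL]
      · exact abs_le.mpr h.2
    refine ⟨mul_le_mul_of_nonneg_left ?_ (by positivity), by linarith⟩
    have h2 : 1 ≤ 5 - 4 * v / lvl n := by
      have : 4 * v / lvl n ≤ 4 := by rw [div_le_iff₀ hL]; linarith [h.2.2]
      linarith only [this]
    have h3 := Real.exp_le_exp.mpr h1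
    linarith only [h3, h2, Real.exp_pos (lvl n), mul_nonneg_of_nonpos_of_nonpos (Mathlib.Tactic.Linarith.sub_nonpos_of_le h2) (le_of_lt (Mathlib.Tactic.Linarith.sub_neg_of_lt (Real.exp_pos (lvl n))))]
  · rw [if_neg he] at h
    rw [if_neg he]
    have h0 := Real.exp_pos y
    have h0' := Real.exp_pos (lvl n)
    rcases hz with rfl | rfl
    · refine ⟨mul_le_mul_of_nonneg_left ?_ (by positivity), abs_le.mpr ⟨by linarith [h.2.1], h.2.2⟩⟩
      rcases le_total 0 z with hz | hz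
      · rw [abs_of_nonneg hz]; linarith
      · have : |z| ≤ lvl n := by rw [abs_of_nonpos hz]; linarith [h.2.1]
        have := Real.exp_le_exp.mpr this
        linarith
    · rw [h.1, abs_neg, abs_of_pos hL]
      exact ⟨mul_le_mul_of_nonneg_left (by linarith) (by positivity), by linarith⟩

lemma WValid.pow_le_pot {n : ℕ} {y v : ℝ} (h : WValid n y v) : (5 / 4) ^ (n / 2) ≤ pot n y v := by
  refine le_trans ?_ (h.exp_le_pot (Or.inl rfl)).1
  exact le_mul_of_one_le_right (by positivity) (Real.one_le_exp (abs_nonneg _))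

lemma WValid.tail_le_pot {n : ℕ} {y v : ℝ} (h : WValid n y v) {z : ℝ} (hz : z = y ∨ z = v)
    (K : ℕ) : (5 / 4) ^ K * (Real.exp |z| - Real.exp (3 ^ (K + 1))) ≤ pot n y v := by
  obtain ⟨h1, h2⟩ := h.exp_le_pot hz
  by_cases hK : |z| ≤ 3 ^ (K + 1)
  · have h3 := Real.exp_le_exp.mpr hK
    have h4 : (0 : ℝ) ≤ pot n y v := le_trans (by positivity) h.pow_le_pot
    have h5 : (0 : ℝ) < (5 / 4) ^ K := by positivity
    linarith only [h4, h3, h5, mul_nonneg_of_nonpos_of_nonpos (Mathlib.Tactic.Linarith.sub_nonpos_of_le h3) (le_of_lt (Mathlib.Tactic.Linarith.sub_neg_of_lt h5))]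
  · have h3 : (3 : ℝ) ^ (K + 1) < 3 ^ (n / 2 + 1 + 1) := by
      rw [pow_succ (3 : ℝ) (n / 2 + 1)]
      unfold lvl at h2
      linarith only [h2, hK, not_le.mp hK]
    have h4 : K + 1 < n / 2 + 1 + 1 := (pow_lt_pow_iff_right₀ (by norm_num)).mp h3
    have h5 : (5 / 4 : ℝ) ^ K ≤ (5 / 4) ^ (n / 2) := pow_le_pow_right₀ (by norm_num) (by omega)
    have h6 := Real.exp_pos (3 ^ (K + 1))
    have h7 := Real.exp_pos |z|
    have h8 : (0 : ℝ) < (5 / 4) ^ K := by positivity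
    linarith only [h1, h5, h7, h6, h8, mul_nonneg_of_nonpos_of_nonpos (Mathlib.Tactic.Linarith.sub_nonpos_of_le h5) (le_of_lt (Mathlib.Tactic.Linarith.sub_neg_of_lt h7)), mul_pos_of_neg_of_neg (Mathlib.Tactic.Linarith.sub_neg_of_lt h6) (Mathlib.Tactic.Linarith.sub_neg_of_lt h8)]

lemma Valid.gap_eq_zero {n : ℕ} {y v : ℝ} (h : Valid n y v) (hyv : y = v) : gap n y v ≤ 0 := by
  unfold Valid at h; unfold gap
  split_ifs at h ⊢
  · exact min_le_of_right_le (by linarith [h.1])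
  · exact min_le_of_left_le (by linarith [h.1])

lemma WValid.eq_of_gap {n : ℕ} {y v : ℝ} (h : WValid n y v) (hg : gap n y v ≤ 0)
    (hn : nxt n y v = n) : y = v := by
  unfold WValid at h; unfold gap at hg; unfold nxt at hn
  have hc : ¬ ((Even n ∧ v = -lvl n) ∨ (¬ Even n ∧ y = 3 * lvl n)) := by
    intro hc; rw [if_pos hc] at hn; omega
  by_cases he : Even n
  · rw [if_pos he] at h hg
    rcases min_le_iff.mp hg with h1 | h1
    · exact absurd (Or.inl ⟨he, by linarith only [h, h1, h.2.1]⟩) hc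
    · linarith only [h, h1, h.1, h.2.2]
  · rw [if_neg he] at h hg
    rcases min_le_iff.mp hg with h1 | h1
    · linarith only [h, h1, h.1, h.2.1]
    · exact absurd (Or.inr ⟨he, by linarith only [h1, h, h.2.2]⟩) hc

lemma valid_zero : Valid 0 3 (-1) := by
  unfold Valid lvl; norm_num

lemma measurable_gap : Measurable (fun p : ℕ × ℝ × ℝ => gap p.1 p.2.1 p.2.2) := by
  have hl : Measurable (fun p : ℕ × ℝ × ℝ => lvl p.1) :=
    (Measurable.of_discrete (f := lvl)).comp measurable_fst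
  unfold gap
  refine Measurable.ite (measurable_fst (MeasurableSet.of_discrete (s := {n | Even n}))) ?_ ?_
  · fun_prop
  · fun_prop

lemma measurable_nxt : Measurable (fun p : ℕ × ℝ × ℝ => nxt p.1 p.2.1 p.2.2) := by
  have hl : Measurable (fun p : ℕ × ℝ × ℝ => lvl p.1) :=
    (Measurable.of_discrete (f := lvl)).comp measurable_fst
  have he : MeasurableSet {p : ℕ × ℝ × ℝ | Even p.1} :=
    measurable_fst (MeasurableSet.of_discrete (s := {n | Even n}))
  unfold nxt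
  refine Measurable.ite ?_ (by fun_prop) measurable_fst
  exact (he.inter (measurableSet_eq_fun (by fun_prop) hl.neg)).union
    (he.compl.inter (measurableSet_eq_fun (by fun_prop) (hl.const_mul 3)))

lemma continuous_gap (n : ℕ) : Continuous (fun p : ℝ × ℝ => gap n p.1 p.2) := by
  unfold gap
  split_ifs <;> fun_prop

end Pool.Agent.Work.MP_dddec1_pr
end

-- merged part: Pool.Agent.Work.MP_dddec1_pr.Chain
section
open MeasureTheory ProbabilityTheory Filter
open scoped NNReal ENNReal Topology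

namespace Pool.Agent.Work.MP_dddec1_pr

variable {Ω : Type*} {mΩ : MeasurableSpace Ω}

/-- The data of the construction. -/
structure Setup (𝓕 : Filtration ℝ≥0 mΩ) (P : Measure Ω) where
  B1 : ℝ≥0 → Ω → ℝ
  B2 : ℝ≥0 → Ω → ℝ
  s : ℕ → ℝ≥0
  h1 : FBM 𝓕 P B1
  h2 : FBM 𝓕 P B2
  s0 : s 0 = 0
  lt : ∀ i, s i < s (i + 1)

namespace Setup

variable {𝓕 : Filtration ℝ≥0 mΩ} {P : Measure Ω} (E : Setup 𝓕 P)

/-- the speed on the `i`-th interval -/
noncomputable def c (i : ℕ) : ℝ := (Real.sqrt ((E.s (i + 1) : ℝ) - E.s i))⁻¹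

/-- speed of the first process -/
noncomputable def ca (n i : ℕ) : ℝ := if Even n then 0 else E.c i

/-- speed of the second process -/
noncomputable def cb (n i : ℕ) : ℝ := if Even n then E.c i else 0

/-- first process on the `i`-th interval -/
noncomputable def py (x : ℕ × ℝ × ℝ) (i : ℕ) (t : ℝ≥0) (ω : Ω) : ℝ :=
  x.2.1 + (E.ca x.1 i * (E.B1 t ω - E.B1 (E.s i) ω) - E.ca x.1 i ^ 2 * ((t : ℝ) - E.s i) / 2)

/-- second process on the `i`-th interval -/
noncomputable def pv (x : ℕ × ℝ × ℝ) (i : ℕ) (t : ℝ≥0) (ω : Ω) : ℝ :=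
  x.2.2 + E.cb x.1 i * (E.B2 t ω - E.B2 (E.s i) ω)

/-- stopping time on the `i`-th interval -/
noncomputable def θ (x : ℕ × ℝ × ℝ) (i : ℕ) (ω : Ω) : ℝ≥0 :=
  hit (fun t => gap x.1 (E.py x i t ω) (E.pv x i t ω)) (E.s i) (E.s (i + 1))

/-- the state at time `s i` -/
noncomputable def X : ℕ → Ω → ℕ × ℝ × ℝ
  | 0, _ => (0, 3, -1)
  | i + 1, ω => (nxt (X i ω).1 (E.py (X i ω) i (E.θ (X i ω) i ω) ω)
      (E.pv (X i ω) i (E.θ (X i ω) i ω) ω), E.py (X i ω) i (E.θ (X i ω) i ω) ω,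
      E.pv (X i ω) i (E.θ (X i ω) i ω) ω)

/-- phase -/
noncomputable def n (i : ℕ) (ω : Ω) : ℕ := (E.X i ω).1
/-- first coordinate -/
noncomputable def y (i : ℕ) (ω : Ω) : ℝ := (E.X i ω).2.1
/-- second coordinate -/
noncomputable def v (i : ℕ) (ω : Ω) : ℝ := (E.X i ω).2.2
/-- first process -/
noncomputable def yy (i : ℕ) (t : ℝ≥0) (ω : Ω) : ℝ := E.py (E.X i ω) i t ω
/-- second process -/
noncomputable def vv (i : ℕ) (t : ℝ≥0) (ω : Ω) : ℝ := E.pv (E.X i ω) i t ω
/-- stopping time -/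
noncomputable def τ (i : ℕ) (ω : Ω) : ℝ≥0 := E.θ (E.X i ω) i ω

lemma mono : StrictMono E.s := strictMono_nat_of_lt_succ E.lt

lemma y_succ (i : ℕ) (ω : Ω) : E.y (i + 1) ω = E.yy i (E.τ i ω) ω := rfl
lemma v_succ (i : ℕ) (ω : Ω) : E.v (i + 1) ω = E.vv i (E.τ i ω) ω := rfl
lemma n_succ (i : ℕ) (ω : Ω) :
    E.n (i + 1) ω = nxt (E.n i ω) (E.y (i + 1) ω) (E.v (i + 1) ω) := rfl
lemma τ_def (i : ℕ) (ω : Ω) : E.τ i ω =
    hit (fun t => gap (E.n i ω) (E.yy i t ω) (E.vv i t ω)) (E.s i) (E.s (i + 1)) := rfl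
lemma yy_def (i : ℕ) (t : ℝ≥0) (ω : Ω) : E.yy i t ω = E.y i ω +
    (E.ca (E.n i ω) i * (E.B1 t ω - E.B1 (E.s i) ω) -
      E.ca (E.n i ω) i ^ 2 * ((t : ℝ) - E.s i) / 2) := rfl
lemma vv_def (i : ℕ) (t : ℝ≥0) (ω : Ω) : E.vv i t ω = E.v i ω +
    E.cb (E.n i ω) i * (E.B2 t ω - E.B2 (E.s i) ω) := rfl

lemma yy_start (i : ℕ) (ω : Ω) : E.yy i (E.s i) ω = E.y i ω := by simp [yy_def]
lemma vv_start (i : ℕ) (ω : Ω) : E.vv i (E.s i) ω = E.v i ω := by simp [vv_def]

lemma cont_yy (i : ℕ) (ω : Ω) : Continuous fun t => E.yy i t ω := by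
  have := E.h1.cont ω
  simp_rw [yy_def]; fun_prop

lemma cont_vv (i : ℕ) (ω : Ω) : Continuous fun t => E.vv i t ω := by
  have := E.h2.cont ω
  simp_rw [vv_def]; fun_prop

lemma cont_gap (i : ℕ) (ω : Ω) :
    Continuous fun t => gap (E.n i ω) (E.yy i t ω) (E.vv i t ω) :=
  (continuous_gap (E.n i ω)).comp ((E.cont_yy i ω).prodMk (E.cont_vv i ω))

lemma le_τ (i : ℕ) (ω : Ω) : E.s i ≤ E.τ i ω := le_hit (E.lt i).le
lemma τ_le (i : ℕ) (ω : Ω) : E.τ i ω ≤ E.s (i + 1) := hit_le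

lemma wvalid_of_valid {i : ℕ} {ω : Ω} (h : Valid (E.n i ω) (E.y i ω) (E.v i ω)) {t : ℝ≥0}
    (h1 : E.s i ≤ t) (h2 : t ≤ E.τ i ω) : WValid (E.n i ω) (E.yy i t ω) (E.vv i t ω) := by
  have h3 := nonneg_of_le_hit (E.cont_gap i ω)
    (by simp only [yy_start, vv_start]; exact h.weak.gap_nonneg) h1 h2
  unfold Valid at h
  unfold WValid
  unfold gap at h3
  by_cases he : Even (E.n i ω)
  · rw [if_pos he] at h h3 ⊢
    rw [le_min_iff] at h3
    refine ⟨?_, by linarith [h3.1], by linarith [h3.2]⟩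
    simp [yy_def, ca, he, h.1]
  · rw [if_neg he] at h h3 ⊢
    rw [le_min_iff] at h3
    refine ⟨?_, by linarith [h3.1], by linarith [h3.2]⟩
    simp [vv_def, cb, he, h.1]

lemma valid (i : ℕ) (ω : Ω) : Valid (E.n i ω) (E.y i ω) (E.v i ω) := by
  induction i with
  | zero => exact valid_zero
  | succ i ih => exact (E.wvalid_of_valid ih (E.le_τ i ω) le_rfl).valid_nxt

lemma wvalid {i : ℕ} {ω : Ω} {t : ℝ≥0}
    (h1 : E.s i ≤ t) (h2 : t ≤ E.τ i ω) : WValid (E.n i ω) (E.yy i t ω) (E.vv i t ω) :=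
  E.wvalid_of_valid (E.valid i ω) h1 h2

lemma n_mono (ω : Ω) : Monotone fun i => E.n i ω :=
  monotone_nat_of_le_succ fun _ => le_nxt _ _ _

section meas

variable {E}

lemma meas_ca {i : ℕ} (hX : Measurable[𝓕 (E.s i)] (E.X i)) :
    Measurable[𝓕 (E.s i)] fun ω => E.ca (E.n i ω) i :=
  (Measurable.of_discrete (f := fun k => E.ca k i)).comp (measurable_fst.comp hX)

lemma meas_cb {i : ℕ} (hX : Measurable[𝓕 (E.s i)] (E.X i)) :
    Measurable[𝓕 (E.s i)] fun ω => E.cb (E.n i ω) i :=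
  (Measurable.of_discrete (f := fun k => E.cb k i)).comp (measurable_fst.comp hX)

lemma meas_gen {i : ℕ} (hX : Measurable[𝓕 (E.s i)] (E.X i)) {ρ : Ω → ℝ≥0} (hρ : ST 𝓕 ρ)
    {u : ℝ≥0} (hu : ∀ ω, ρ ω ≤ u) (hs : E.s i ≤ u) :
    Measurable[𝓕 u] (fun ω => E.yy i (ρ ω) ω) ∧ Measurable[𝓕 u] (fun ω => E.vv i (ρ ω) ω) := by
  have a1 := (meas_ca hX).mono (𝓕.mono hs) le_rfl
  have a2 := (meas_cb hX).mono (𝓕.mono hs) le_rfl
  have a3 : Measurable[𝓕 u] (E.y i) :=
    (measurable_fst.comp (measurable_snd.comp hX)).mono (𝓕.mono hs) le_rfl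
  have a4 : Measurable[𝓕 u] (E.v i) :=
    (measurable_snd.comp (measurable_snd.comp hX)).mono (𝓕.mono hs) le_rfl
  have a5 := meas_stopped E.h1.prog hρ hu
  have a6 := meas_stopped E.h2.prog hρ hu
  have a7 := E.h1.meas_le hs
  have a8 := E.h2.meas_le hs
  have a9 : Measurable[𝓕 u] fun ω => (ρ ω : ℝ) :=
    NNReal.continuous_coe.measurable.comp (hρ.measurable_of_le hu)
  simp_rw [yy_def, vv_def]
  exact ⟨a3.add ((a1.mul (a5.sub a7)).sub (((a1.pow_const 2).mul (a9.sub_const _)).div_const _)),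
    a4.add (a2.mul (a6.sub a8))⟩

lemma st_τ_of {i : ℕ} (hX : Measurable[𝓕 (E.s i)] (E.X i)) : ST 𝓕 (E.τ i) := by
  refine st_hit (G := fun t ω => gap (E.n i ω) (E.yy i t ω) (E.vv i t ω)) (E.lt i).le
    (E.cont_gap i) fun t ht => ?_
  obtain ⟨a1, a2⟩ := meas_gen hX (ST.const t) (fun _ => le_rfl) ht
  have a3 : Measurable[𝓕 t] (E.n i) := (measurable_fst.comp hX).mono (𝓕.mono ht) le_rfl
  exact measurable_gap.comp (a3.prodMk (a1.prodMk a2))

end meas

lemma meas_X (i : ℕ) : Measurable[𝓕 (E.s i)] (E.X i) := by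
  induction i with
  | zero => exact measurable_const
  | succ i ih =>
    obtain ⟨a1, a2⟩ := meas_gen ih (st_τ_of ih) (E.τ_le i) (E.lt i).le
    have a3 : Measurable[𝓕 (E.s (i + 1))] (E.n i) :=
      (measurable_fst.comp ih).mono (𝓕.mono (E.lt i).le) le_rfl
    exact (measurable_nxt.comp (a3.prodMk (a1.prodMk a2))).prodMk (a1.prodMk a2)

lemma st_τ (i : ℕ) : ST 𝓕 (E.τ i) := st_τ_of (E.meas_X i)
lemma meas_n (i : ℕ) : Measurable[𝓕 (E.s i)] (E.n i) := measurable_fst.comp (E.meas_X i)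
lemma meas_y (i : ℕ) : Measurable[𝓕 (E.s i)] (E.y i) :=
  measurable_fst.comp (measurable_snd.comp (E.meas_X i))
lemma meas_v (i : ℕ) : Measurable[𝓕 (E.s i)] (E.v i) :=
  measurable_snd.comp (measurable_snd.comp (E.meas_X i))

/-- The one-interval supermartingale inequality. -/
lemma step [IsProbabilityMeasure P] (i : ℕ) {A : Set Ω} (hA : MeasurableSet[𝓕 (E.s i)] A)
    {ρ : Ω → ℝ≥0} (hρ : ST 𝓕 ρ) (h1 : ∀ ω, E.s i ≤ ρ ω) (h2 : ∀ ω, ρ ω ≤ E.τ i ω) :
    ∫⁻ ω in A, ENNReal.ofReal (pot (E.n i ω) (E.yy i (ρ ω) ω) (E.vv i (ρ ω) ω)) ∂P ≤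
      ∫⁻ ω in A, ENNReal.ofReal (pot (E.n i ω) (E.y i ω) (E.v i ω)) ∂P := by
  refine lintegral_le_of_fibers ((E.meas_n i).mono (𝓕.le _) le_rfl) (𝓕.le _ _ hA) fun k => ?_
  have hA' : MeasurableSet[𝓕 (E.s i)] (A ∩ {ω | E.n i ω = k}) :=
    hA.inter (E.meas_n i (measurableSet_singleton k))
  have hA'' : MeasurableSet (A ∩ {ω | E.n i ω = k}) := 𝓕.le _ _ hA'
  have h2' : ∀ ω, ρ ω ≤ E.s (i + 1) := fun ω => (h2 ω).trans (E.τ_le i ω)
  have hL := lvl_pos k
  by_cases he : Even k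
  · set κ : ℝ := (5 / 4) ^ (k / 2) * Real.exp (lvl k) with hκ
    have hκ0 : 0 < κ := by positivity
    have hb : ∀ z, -lvl k ≤ z → z ≤ lvl k →
        0 ≤ κ * (5 - 4 * z / lvl k) ∧ κ * (5 - 4 * z / lvl k) ≤ κ * 9 := by
      intro z z1 z2
      have e1 : 4 * z / lvl k ≤ 4 := by rw [div_le_iff₀ hL]; linarith only [z2]
      have e2 : -4 ≤ 4 * z / lvl k := by rw [le_div_iff₀ hL]; linarith only [z1]
      exact ⟨mul_nonneg hκ0.le (by linarith only [e1]), mul_le_mul_of_nonneg_left (by linarith only [e2]) hκ0.le⟩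
    have e3 : ∀ ω ∈ A ∩ {ω | E.n i ω = k}, κ * (5 - 4 * E.vv i (ρ ω) ω / lvl k) =
        κ * (5 - 4 * E.v i ω / lvl k) +
          (-4 * κ * E.c i / lvl k) * (E.B2 (ρ ω) ω - E.B2 (E.s i) ω) := by
      intro ω hω
      have hk : E.n i ω = k := hω.2
      rw [vv_def, hk, cb, if_pos he]
      field_simp
      ring
    have := E.h2.lin_stop_set (E.lt i) hρ h1 h2' hA' (H := fun ω => κ * (5 - 4 * E.v i ω / lvl k))
      ((((E.meas_v i).const_mul 4).div_const _).const_sub 5 |>.const_mul κ)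
      (-4 * κ * E.c i / lvl k) (κ * 9) (fun ω hω => ?_) (fun ω hω => ?_)
    · refine le_trans (le_of_eq ?_) (this.trans (le_of_eq ?_))
      · refine setLIntegral_congr_fun hA'' fun ω hω => ?_
        have hk : E.n i ω = k := hω.2
        rw [← e3 ω hω, hk, pot, if_pos he, hκ, mul_assoc]
      · refine setLIntegral_congr_fun hA'' fun ω hω => ?_
        have hk : E.n i ω = k := hω.2
        rw [hk, pot, if_pos he, hκ, mul_assoc]
    · have hk : E.n i ω = k := hω.2
      have := (E.valid i ω).weak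
      rw [hk, WValid, if_pos he] at this
      exact hb _ this.2.1 this.2.2
    · have hk : E.n i ω = k := hω.2
      have := E.wvalid (h1 ω) (h2 ω)
      rw [hk, WValid, if_pos he] at this
      rw [← e3 ω hω]
      exact hb _ this.2.1 this.2.2
  · set κ : ℝ := (5 / 4) ^ (k / 2) with hκ
    have hκ0 : 0 < κ := by positivity
    have := E.h1.exp_stop_set (E.lt i) hρ h1 h2' hA' (H := fun ω => κ * 8 * Real.exp (E.y i ω))
      ((Real.measurable_exp.comp (E.meas_y i)).const_mul _) (E.c i)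
    have this' := add_le_add this (le_refl
      (∫⁻ _ in A ∩ {ω | E.n i ω = k}, ENNReal.ofReal (κ * Real.exp (lvl k)) ∂P))
    rw [← lintegral_add_right _ measurable_const, ← lintegral_add_right _ measurable_const] at this'
    refine le_trans (le_of_eq ?_) (this'.trans (le_of_eq ?_))
    · refine setLIntegral_congr_fun hA'' fun ω hω => ?_
      have hk : E.n i ω = k := hω.2
      rw [← ENNReal.ofReal_add (by positivity) (by positivity), yy_def, hk, pot, if_neg he, ca,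
        if_neg he, Real.exp_add]
      congr 1; ring
    · refine setLIntegral_congr_fun hA'' fun ω hω => ?_
      have hk : E.n i ω = k := hω.2
      rw [← ENNReal.ofReal_add (by positivity) (by positivity), hk, pot, if_neg he]
      congr 1; ring

/-- first process, using the first `N` intervals -/
noncomputable def YN (N : ℕ) (t : ℝ≥0) (ω : Ω) : ℝ :=
  3 + ∑ i ∈ Finset.range N, (E.ca (E.n i ω) i * (E.B1 (min (E.τ i ω) t) ω - E.B1 (min (E.s i) t) ω)
    - E.ca (E.n i ω) i ^ 2 * (((min (E.τ i ω) t : ℝ≥0) : ℝ) - (min (E.s i) t : ℝ≥0)) / 2)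

/-- second process, using the first `N` intervals -/
noncomputable def VN (N : ℕ) (t : ℝ≥0) (ω : Ω) : ℝ :=
  -1 + ∑ i ∈ Finset.range N,
    E.cb (E.n i ω) i * (E.B2 (min (E.τ i ω) t) ω - E.B2 (min (E.s i) t) ω)

lemma YN_succ_of_le {j : ℕ} {t : ℝ≥0} (h : t ≤ E.s j) (ω : Ω) :
    E.YN (j + 1) t ω = E.YN j t ω ∧ E.VN (j + 1) t ω = E.VN j t ω := by
  unfold YN VN
  rw [Finset.sum_range_succ, Finset.sum_range_succ, min_eq_right h,
    min_eq_right (h.trans (E.le_τ j ω))]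
  simp

lemma YN_eq (j : ℕ) (ω : Ω) : ∀ t, E.s j ≤ t → E.YN j t ω = E.y j ω ∧ E.VN j t ω = E.v j ω := by
  induction j with
  | zero => intro t _; simp [YN, VN, y, v, X]
  | succ j ih =>
    intro t ht
    have h1 : E.s j ≤ t := (E.lt j).le.trans ht
    obtain ⟨a1, a2⟩ := ih t h1
    unfold YN at a1 ⊢; unfold VN at a2 ⊢
    rw [Finset.sum_range_succ, Finset.sum_range_succ, ← add_assoc, ← add_assoc, a1, a2,
      min_eq_left h1, min_eq_left ((E.τ_le j ω).trans ht)]
    exact ⟨rfl, rfl⟩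

lemma YN_succ_of_ge {j : ℕ} {t : ℝ≥0} (h : E.s j ≤ t) (ω : Ω) :
    E.YN (j + 1) t ω = E.yy j (min (E.τ j ω) t) ω ∧
      E.VN (j + 1) t ω = E.vv j (min (E.τ j ω) t) ω := by
  obtain ⟨a1, a2⟩ := E.YN_eq j ω t h
  unfold YN at a1 ⊢; unfold VN at a2 ⊢
  rw [Finset.sum_range_succ, Finset.sum_range_succ, ← add_assoc, ← add_assoc, a1, a2,
    min_eq_left h]
  exact ⟨rfl, rfl⟩

open Classical in
lemma W_le [IsProbabilityMeasure P] {h : ℝ → ℝ → ℝ}
    (hh : ∀ k y v, WValid k y v → h y v ≤ pot k y v) {ρ : Ω → ℝ≥0} (hρ : ST 𝓕 ρ) (j : ℕ) :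
    ∫⁻ ω, (if ρ ω < E.s j then ENNReal.ofReal (h (E.YN j (ρ ω) ω) (E.VN j (ρ ω) ω))
      else ENNReal.ofReal (pot (E.n j ω) (E.y j ω) (E.v j ω))) ∂P ≤
      ENNReal.ofReal (pot 0 3 (-1)) := by
  induction j with
  | zero => simp [E.s0, n, y, v, X]
  | succ j ih =>
    refine le_trans ?_ ih
    have hA : MeasurableSet[𝓕 (E.s j)] {ω | ρ ω < E.s j} := hρ.measurableSet_lt _
    have hA' : MeasurableSet {ω | ρ ω < E.s j} := 𝓕.le _ _ hA
    refine le_trans (lintegral_add_compl _ hA').ge (le_trans ?_ (lintegral_add_compl _ hA').le)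
    refine add_le_add (le_of_eq (setLIntegral_congr_fun hA' fun ω hω => ?_)) ?_
    · have hω' : ρ ω < E.s j := hω
      rw [if_pos hω', if_pos (hω'.trans (E.lt j)), (E.YN_succ_of_le hω'.le ω).1,
        (E.YN_succ_of_le hω'.le ω).2]
    · have := E.step j hA.compl (ρ := fun ω => min (E.τ j ω) (max (ρ ω) (E.s j)))
        ((E.st_τ j).inf (hρ.sup (ST.const _)))
        (fun ω => le_min (E.le_τ j ω) (le_max_right _ _)) (fun ω => min_le_left _ _)
      refine le_trans (setLIntegral_mono' hA'.compl fun ω hω => ?_) (this.trans (le_of_eq ?_))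
      · have hω' : E.s j ≤ ρ ω := not_lt.mp hω
        rw [max_eq_left hω']
        have hw := E.wvalid (i := j) (ω := ω) (t := min (E.τ j ω) (ρ ω))
          (le_min (E.le_τ j ω) hω') (min_le_left _ _)
        split_ifs with hc
        · rw [(E.YN_succ_of_ge hω' ω).1, (E.YN_succ_of_ge hω' ω).2]
          exact ENNReal.ofReal_le_ofReal (hh _ _ _ hw)
        · rw [min_eq_left ((E.τ_le j ω).trans (not_lt.mp hc))] at hw ⊢
          exact ENNReal.ofReal_le_ofReal hw.pot_nxt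
      · refine setLIntegral_congr_fun hA'.compl fun ω hω => ?_
        have hω' : ¬ ρ ω < E.s j := hω
        rw [if_neg hω']

lemma lintegral_h_le [IsProbabilityMeasure P] {h : ℝ → ℝ → ℝ}
    (hh : ∀ k y v, WValid k y v → h y v ≤ pot k y v) {ρ : Ω → ℝ≥0} (hρ : ST 𝓕 ρ) (j : ℕ) :
    ∫⁻ ω, ENNReal.ofReal (h (E.YN j (ρ ω) ω) (E.VN j (ρ ω) ω)) ∂P ≤
      ENNReal.ofReal (pot 0 3 (-1)) := by
  refine le_trans (lintegral_mono fun ω => ?_) (E.W_le hh hρ j)
  simp only
  split_ifs with hc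
  · exact le_rfl
  · rw [(E.YN_eq j ω _ (not_lt.mp hc)).1, (E.YN_eq j ω _ (not_lt.mp hc)).2]
    exact ENNReal.ofReal_le_ofReal (hh _ _ _ (E.valid j ω).weak)

lemma lintegral_pot_le [IsProbabilityMeasure P] (j : ℕ) :
    ∫⁻ ω, ENNReal.ofReal (pot (E.n j ω) (E.y j ω) (E.v j ω)) ∂P ≤
      ENNReal.ofReal (pot 0 3 (-1)) := by
  have := E.W_le (h := fun _ _ => 0)
    (fun k y v hw => le_trans (by positivity) hw.pow_le_pot) (ST.const (𝓕 := 𝓕) (E.s j)) j
  simpa using this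

end Setup

end Pool.Agent.Work.MP_dddec1_pr
end

-- merged part: Pool.Agent.Work.MP_dddec1_pr.Term
section
open MeasureTheory ProbabilityTheory Filter
open scoped NNReal ENNReal Topology

namespace Pool.Agent.Work.MP_dddec1_pr

variable {Ω : Type*} {mΩ : MeasurableSpace Ω}
variable {𝓕 : Filtration ℝ≥0 mΩ} {P : Measure Ω}

lemma gauss_Iic_lt_one (w : ℝ) : gaussianReal 0 1 (Set.Iic w) < 1 := by
  have h1 : gaussianReal 0 1 (Set.Ioi w) ≠ 0 := fun h => by
    have := gaussianReal_absolutelyContinuous' 0 (v := 1) one_ne_zero h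
    simp at this
  have h2 := prob_compl_eq_one_sub (μ := gaussianReal 0 1) (measurableSet_Ioi (a := w))
  rw [Set.compl_Ioi] at h2
  rw [h2]
  exact ENNReal.sub_lt_self ENNReal.one_ne_top one_ne_zero h1

namespace Setup

variable (E : Setup 𝓕 P)

lemma sub_pos (i : ℕ) : 0 < (E.s (i + 1) : ℝ) - E.s i := by
  have : (E.s i : ℝ) < E.s (i + 1) := by exact_mod_cast E.lt i
  linarith

lemma c_sq (i : ℕ) : E.c i ^ 2 * ((E.s (i + 1) : ℝ) - E.s i) = 1 := by
  unfold c
  rw [inv_pow, Real.sq_sqrt (E.sub_pos i).le, inv_mul_cancel₀ (E.sub_pos i).ne']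

lemma big [IsProbabilityMeasure P] {B : ℝ≥0 → Ω → ℝ} (hB : FBM 𝓕 P B) :
    ∀ᵐ ω ∂P, ∀ j w : ℕ, ∃ i, j ≤ i ∧ (w : ℝ) < E.c i * (B (E.s (i + 1)) ω - B (E.s i) ω) := by
  rw [ae_all_iff]; intro j
  rw [ae_all_iff]; intro w
  set q := gaussianReal 0 1 (Set.Iic (w : ℝ)) with hq
  set C : ℕ → Set Ω := fun i => {ω | E.c i * (B (E.s (i + 1)) ω - B (E.s i) ω) ≤ w} with hC
  have hCq : ∀ i, P (C i) = q := by
    intro i
    have hD : Measurable (fun ω => B (E.s (i + 1)) ω - B (E.s i) ω) := (hB.meas _).sub (hB.meas _)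
    have h1 : C i = (fun ω => B (E.s (i + 1)) ω - B (E.s i) ω) ⁻¹'
        ((fun x => E.c i * x) ⁻¹' Set.Iic (w : ℝ)) := rfl
    have hm : Measurable (fun x : ℝ => E.c i * x) := by fun_prop
    rw [h1, ← Measure.map_apply hD (hm measurableSet_Iic), hB.law _ _ (E.lt i).le,
      ← Measure.map_apply hm measurableSet_Iic, gaussianReal_map_const_mul, mul_zero, hq]
    congr 2
    ext
    rw [NNReal.coe_mul, NNReal.coe_sub (E.lt i).le]
    exact E.c_sq i
  have hCm : ∀ i, MeasurableSet[𝓕 (E.s (i + 1))] (C i) := fun i =>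
    measurableSet_le (((hB.adapted _).sub (hB.meas_le (E.lt i).le)).const_mul _) measurable_const
  set A : ℕ → Set Ω := fun m => ⋂ i ∈ Finset.range m, C (j + i) with hA
  have hAm : ∀ m, MeasurableSet[𝓕 (E.s (j + m))] (A m) := fun m =>
    Finset.measurableSet_biInter _ fun i hi =>
      𝓕.mono (E.mono.monotone (by have := Finset.mem_range.mp hi; omega)) _ (hCm (j + i))
  have hAq : ∀ m, P (A m) = q ^ m := by
    intro m
    induction m with
    | zero => simp [hA]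
    | succ m ih =>
      have h1 : A (m + 1) = A m ∩ C (j + m) := by
        simp only [hA, Finset.range_add_one, Finset.set_biInter_insert, Set.inter_comm]
      have h2 := (Indep_iff _ _ _).mp (hB.indep _ _ (E.lt (j + m)).le) (A m) (C (j + m)) (hAm m)
        ⟨(fun x => E.c (j + m) * x) ⁻¹' Set.Iic (w : ℝ),
          (by fun_prop : Measurable fun x : ℝ => E.c (j + m) * x) measurableSet_Iic, rfl⟩
      rw [h1, h2, ih, hCq, pow_succ]
  rw [ae_iff]
  have h3 := ENNReal.tendsto_pow_atTop_nhds_zero_of_lt_one (gauss_Iic_lt_one w)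
  refine le_antisymm (ge_of_tendsto' h3 fun m => ?_) zero_le
  rw [← hq, ← hAq m]
  refine measure_mono fun ω hω => ?_
  simp only [Set.mem_ofPred_eq, not_exists, not_and, not_lt] at hω
  simp only [hA, Set.mem_iInter]
  exact fun i _ => hω _ (Nat.le_add_right _ _)

lemma n_bdd [IsProbabilityMeasure P] : ∀ᵐ ω ∂P, ∃ K, ∀ j, E.n j ω < K := by
  rw [ae_iff]
  have h3 : Tendsto (fun K : ℕ => ENNReal.ofReal (pot 0 3 (-1) * (4 / 5) ^ K)) atTop
      (𝓝 (ENNReal.ofReal (pot 0 3 (-1) * 0))) :=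
    ENNReal.tendsto_ofReal ((tendsto_pow_atTop_nhds_zero_of_lt_one (by norm_num)
      (by norm_num)).const_mul _)
  rw [mul_zero, ENNReal.ofReal_zero] at h3
  refine le_antisymm (ge_of_tendsto' h3 fun K => ?_) zero_le
  have h1 : Monotone fun j => {ω | 2 * K ≤ E.n j ω} := fun j j' h ω hω =>
    le_trans (show 2 * K ≤ E.n j ω from hω) (E.n_mono ω h)
  refine le_trans (measure_mono (t := ⋃ j, {ω | 2 * K ≤ E.n j ω}) fun ω hω => ?_) ?_
  · simp only [Set.mem_ofPred_eq, not_exists, not_forall, not_lt] at hω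
    simpa using hω (2 * K)
  rw [h1.measure_iUnion]
  refine iSup_le fun j => ?_
  have hm : MeasurableSet {ω | 2 * K ≤ E.n j ω} :=
    ((E.meas_n j).mono (𝓕.le _) le_rfl) (MeasurableSet.of_discrete (s := Set.Ici (2 * K)))
  have h2 : ENNReal.ofReal ((5 / 4) ^ K) * P {ω | 2 * K ≤ E.n j ω} ≤
      ENNReal.ofReal (pot 0 3 (-1)) := by
    refine le_trans ?_ (E.lintegral_pot_le j)
    rw [← setLIntegral_const]
    refine le_trans (setLIntegral_mono' hm fun ω hω => ?_) (setLIntegral_le_lintegral _ _)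
    refine ENNReal.ofReal_le_ofReal (le_trans ?_ (E.valid j ω).weak.pow_le_pot)
    have : 2 * K ≤ E.n j ω := hω
    exact pow_le_pow_right₀ (by norm_num) (by omega)
  rw [mul_comm, ← ENNReal.le_div_iff_mul_le (Or.inl (by simp)) (Or.inl ENNReal.ofReal_ne_top),
    ← ENNReal.ofReal_div_of_pos (by positivity)] at h2
  refine h2.trans (le_of_eq ?_)
  congr 1
  rw [div_eq_mul_inv, ← inv_pow]; norm_num

lemma τ_eq_of_done {i : ℕ} {ω : Ω} (h : E.y i ω = E.v i ω) : E.τ i ω = E.s i := by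
  rw [τ_def]
  refine hit_eq_left (E.lt i).le ?_
  simp only [yy_start, vv_start]
  exact (E.valid i ω).gap_eq_zero h

lemma done_succ {i : ℕ} {ω : Ω} (h : E.y i ω = E.v i ω) : E.y (i + 1) ω = E.v (i + 1) ω := by
  rw [y_succ, v_succ, E.τ_eq_of_done h, yy_start, vv_start, h]

lemma ae_done [IsProbabilityMeasure P] : ∀ᵐ ω ∂P, ∃ N, ∀ i, N ≤ i → E.y i ω = E.v i ω := by
  filter_upwards [E.big E.h1, E.big E.h2, E.n_bdd] with ω b1 b2 ⟨K, hK⟩
  have hc : ∃ j0, ∀ j, j0 ≤ j → E.n j ω = E.n j0 ω := by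
    obtain ⟨j0, hj0⟩ := (Set.Finite.subset (Set.finite_lt_nat K)
      (show Set.range (fun j => E.n j ω) ⊆ {i | i < K} by
        rintro _ ⟨j, rfl⟩; exact hK j)).exists_maximal (Set.range_nonempty _)
    obtain ⟨j1, rfl⟩ := hj0.1
    exact ⟨j1, fun j hj => le_antisymm (hj0.2 ⟨j, rfl⟩ (E.n_mono ω hj)) (E.n_mono ω hj)⟩
  obtain ⟨j0, hj0⟩ := hc
  set k := E.n j0 ω with hk
  obtain ⟨w, hw⟩ := exists_nat_ge (4 * lvl k + 1)
  have hL := lvl_pos k
  have key : ∃ i, E.y (i + 1) ω = E.v (i + 1) ω := by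
    have aux : ∀ i, j0 ≤ i → E.τ i ω < E.s (i + 1) → E.y (i + 1) ω = E.v (i + 1) ω := by
      intro i hi hτ
      refine (E.wvalid (E.le_τ i ω) le_rfl).eq_of_gap (nonpos_hit (E.cont_gap i ω) hτ) ?_
      exact (hj0 (i + 1) (by omega)).trans (hj0 i hi).symm
    by_cases he : Even k
    · obtain ⟨i, hi, hi'⟩ := b2 j0 w
      refine ⟨i, aux i hi (lt_of_le_of_ne (E.τ_le i ω) fun h => ?_)⟩
      have h1 := E.wvalid (E.lt i).le h.ge
      have h2 := (E.valid i ω).weak
      rw [vv_def, hj0 i hi, WValid, if_pos he, cb, if_pos he] at h1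
      rw [hj0 i hi, WValid, if_pos he] at h2
      linarith only [hw, hL, hi', h1, h2, h1.2.2, h2.2.1]
    · obtain ⟨i, hi, hi'⟩ := b1 j0 w
      refine ⟨i, aux i hi (lt_of_le_of_ne (E.τ_le i ω) fun h => ?_)⟩
      have h1 := E.wvalid (E.lt i).le h.ge
      have h2 := (E.valid i ω).weak
      rw [yy_def, hj0 i hi, WValid, if_neg he, ca, if_neg he, E.c_sq] at h1
      rw [hj0 i hi, WValid, if_neg he] at h2
      linarith only [hw, hi', h1, h2, h1.2.2, h2.2.1]
  obtain ⟨i, hi⟩ := key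
  refine ⟨i + 1, fun j hj => ?_⟩
  induction j, hj using Nat.le_induction with
  | base => exact hi
  | succ j _ ih => exact E.done_succ ih

end Setup

lemma ui_of_tail [IsProbabilityMeasure P] {ι : Type*} {f : ι → Ω → ℝ} (hf : ∀ i, Measurable (f i))
    (h0 : ∀ i ω, 0 ≤ f i ω)
    (h : ∀ ε : ℝ, 0 < ε → ∃ C : ℝ, 0 < C ∧ ∀ i,
      ∫⁻ ω, ENNReal.ofReal (f i ω - C) ∂P ≤ ENNReal.ofReal ε) :
    UniformIntegrable f 1 P := by
  have key : ∀ (C : ℝ) i (s : Set Ω), 0 < C → MeasurableSet s →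
      eLpNorm (s.indicator (f i)) 1 P ≤
        ENNReal.ofReal C * P s + ∫⁻ ω, ENNReal.ofReal (f i ω - C) ∂P := by
    intro C i s hC hs
    rw [eLpNorm_one_eq_lintegral_enorm, ← setLIntegral_const, ← lintegral_indicator hs,
      ← lintegral_add_left (measurable_const.indicator hs)]
    refine lintegral_mono fun ω => ?_
    by_cases hω : ω ∈ s
    · simp only [Set.indicator_of_mem hω]
      rw [Real.enorm_of_nonneg (h0 i ω)]
      refine le_trans (le_of_eq ?_) ENNReal.ofReal_add_le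
      congr 1; ring
    · simp [hω]
  refine ⟨fun i => (hf i).aestronglyMeasurable, fun ε hε => ?_, ?_⟩
  · obtain ⟨C, hC, hh⟩ := h (ε / 2) (half_pos hε)
    refine ⟨ε / 2 / C, by positivity, fun i s hs hP => (key C i s hC hs).trans ?_⟩
    refine le_trans (add_le_add (mul_le_mul_right hP _) (hh i)) (le_of_eq ?_)
    rw [← ENNReal.ofReal_mul hC.le, ← ENNReal.ofReal_add (by positivity) (by positivity)]
    congr 1; field_simp; ring
  · obtain ⟨C, hC, hh⟩ := h 1 one_pos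
    refine ⟨(C + 1).toNNReal, fun i => ?_⟩
    have := key C i Set.univ hC MeasurableSet.univ
    rw [Set.indicator_univ, measure_univ, mul_one] at this
    refine this.trans ((add_le_add le_rfl (hh i)).trans (le_of_eq ?_))
    rw [← ENNReal.ofReal_add hC.le zero_le_one]; rfl

end Pool.Agent.Work.MP_dddec1_pr
end

-- merged part: Pool.Agent.Work.MP_dddec1_pr.Final
section
open MeasureTheory ProbabilityTheory Filter
open scoped NNReal ENNReal Topology

namespace Pool.Agent.Work.MP_dddec1_pr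

variable {Ω : Type*} {mΩ : MeasurableSpace Ω}
variable {𝓕 : Filtration ℝ≥0 mΩ} {P : Measure Ω}

namespace Setup

variable (E : Setup 𝓕 P)

/-- the event that the two processes merge -/
def good : Set Ω := {ω | ∃ N, ∀ i, N ≤ i → E.y i ω = E.v i ω}

open Classical in
/-- the integrand attached to a choice of speeds -/
noncomputable def pieces (hg : MeasurableSet[𝓕 0] E.good) (γ : ℕ → ℕ → ℝ)
    (hγ : ∀ k i, |γ k i| ≤ |E.c i|) : Pieces 𝓕 where
  s := E.s
  τ := E.τ
  β := fun i ω => if ω ∈ E.good ∧ E.s i < E.τ i ω then γ (E.n i ω) i else 0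
  lt := E.lt
  st := E.st_τ
  le1 := E.le_τ
  le2 := E.τ_le
  meas := fun i => by
    refine Measurable.ite ?_
      ((Measurable.of_discrete (f := fun k => γ k i)).comp (E.meas_n i)) measurable_const
    refine MeasurableSet.inter (𝓕.mono zero_le _ hg) ?_
    have := (E.st_τ i (E.s i)).compl
    convert this using 1
    ext ω
    exact (not_le (a := E.τ i ω) (b := E.s i)).symm
  bdd := fun i => ⟨|E.c i|, fun ω => by
    split_ifs
    · exact hγ _ _
    · simp⟩
  fin := fun ω => by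
    by_cases hω : ω ∈ E.good
    · obtain ⟨N, hN⟩ := hω
      exact ⟨N, fun i hi => if_neg fun h => h.2.ne' (E.τ_eq_of_done (hN i hi))⟩
    · exact ⟨0, fun i _ => if_neg fun h => hω h.1⟩

lemma abs_ca (k i : ℕ) : |E.ca k i| ≤ |E.c i| := by unfold ca; split_ifs <;> simp
lemma abs_cb (k i : ℕ) : |E.cb k i| ≤ |E.c i| := by unfold cb; split_ifs <;> simp
lemma abs_zero_le (_k i : ℕ) : |(0 : ℝ)| ≤ |E.c i| := by simp

section sums

variable (hg : MeasurableSet[𝓕 0] E.good) (γ : ℕ → ℕ → ℝ) (hγ : ∀ k i, |γ k i| ≤ |E.c i|)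

lemma pieces_β_zero {ω : Ω} {N : ℕ} (hN : ∀ i, N ≤ i → E.y i ω = E.v i ω) (i : ℕ) (hi : N ≤ i) :
    (E.pieces hg γ hγ).β i ω = 0 :=
  if_neg fun h => h.2.ne' (E.τ_eq_of_done (hN i hi))

lemma pieces_I {ω : Ω} {N : ℕ} (hN : ∀ i, N ≤ i → E.y i ω = E.v i ω) (B : ℝ≥0 → Ω → ℝ)
    (t : ℝ≥0) : (E.pieces hg γ hγ).I B t ω = ∑ i ∈ Finset.range N,
      γ (E.n i ω) i * (B (min (E.τ i ω) t) ω - B (min (E.s i) t) ω) := by
  rw [Pieces.I_eq _ B (E.pieces_β_zero hg γ hγ hN)]
  refine Finset.sum_congr rfl fun i _ => ?_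
  simp only [pieces]
  split_ifs with h
  · rfl
  · have : E.τ i ω = E.s i :=
      le_antisymm (not_lt.mp fun h' => h ⟨⟨N, hN⟩, h'⟩) (E.le_τ i ω)
    simp [this]

lemma pieces_A {ω : Ω} {N : ℕ} (hN : ∀ i, N ≤ i → E.y i ω = E.v i ω)
    (t : ℝ≥0) : (E.pieces hg γ hγ).A t ω = ∑ i ∈ Finset.range N,
      γ (E.n i ω) i ^ 2 * (((min (E.τ i ω) t : ℝ≥0) : ℝ) - (min (E.s i) t : ℝ≥0)) := by
  rw [Pieces.A_eq _ (E.pieces_β_zero hg γ hγ hN)]
  refine Finset.sum_congr rfl fun i _ => ?_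
  simp only [pieces]
  split_ifs with h
  · rfl
  · have : E.τ i ω = E.s i :=
      le_antisymm (not_lt.mp fun h' => h ⟨⟨N, hN⟩, h'⟩) (E.le_τ i ω)
    simp [this]

end sums

variable (hg : MeasurableSet[𝓕 0] E.good)

/-- integrand of the first solution -/
noncomputable def D1 : Pieces 𝓕 := E.pieces hg E.ca E.abs_ca
/-- integrand of the second solution -/
noncomputable def D2 : Pieces 𝓕 := E.pieces hg E.cb E.abs_cb
/-- zero integrand -/
noncomputable def D0 : Pieces 𝓕 := E.pieces hg (fun _ _ => 0) E.abs_zero_le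

/-- first solution -/
noncomputable def Y (t : ℝ≥0) (ω : Ω) : ℝ := 3 + (E.D1 hg).I E.B1 t ω - (E.D1 hg).A t ω / 2
/-- second solution -/
noncomputable def V (t : ℝ≥0) (ω : Ω) : ℝ := -1 + (E.D2 hg).I E.B2 t ω

lemma D0_Z (t : ℝ≥0) (ω : Ω) : (E.D0 hg).Z t ω = 0 := by simp [D0, pieces, Pieces.Z]
lemma D0_I (B : ℝ≥0 → Ω → ℝ) (t : ℝ≥0) (ω : Ω) : (E.D0 hg).I B t ω = 0 := by
  simp [D0, pieces, Pieces.I]

lemma Y_eq {ω : Ω} {N : ℕ} (hN : ∀ i, N ≤ i → E.y i ω = E.v i ω) (t : ℝ≥0) :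
    E.Y hg t ω = E.YN N t ω := by
  unfold Y YN D1
  rw [E.pieces_I hg _ _ hN, E.pieces_A hg _ _ hN, Finset.sum_sub_distrib, Finset.sum_div]
  ring

lemma V_eq {ω : Ω} {N : ℕ} (hN : ∀ i, N ≤ i → E.y i ω = E.v i ω) (t : ℝ≥0) :
    E.V hg t ω = E.VN N t ω := by
  unfold V VN D2
  rw [E.pieces_I hg _ _ hN]

lemma adapted_Y (t : ℝ≥0) : Measurable[𝓕 t] (E.Y hg t) :=
  (((E.D1 hg).adapted_I E.h1 t).const_add 3).sub (((E.D1 hg).adapted_A t).div_const 2)

lemma adapted_V (t : ℝ≥0) : Measurable[𝓕 t] (E.V hg t) :=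
  ((E.D2 hg).adapted_I E.h2 t).const_add (-1)

lemma cont_Y (ω : Ω) : Continuous fun t => E.Y hg t ω :=
  (continuous_const.add ((E.D1 hg).cont_I E.h1 ω)).sub (((E.D1 hg).cont_A ω).div_const 2)

lemma cont_V (ω : Ω) : Continuous fun t => E.V hg t ω :=
  continuous_const.add ((E.D2 hg).cont_I E.h2 ω)

lemma Y_zero (ω : Ω) : E.Y hg 0 ω = 3 := by simp [Y, Pieces.I, Pieces.A]
lemma V_zero (ω : Ω) : E.V hg 0 ω = -1 := by simp [V, Pieces.I]

lemma meas_YN {ρ : Ω → ℝ≥0} (hρ : ST 𝓕 ρ) {T : ℝ≥0} (hT : ∀ ω, ρ ω ≤ T) (N : ℕ) :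
    Measurable (fun ω => E.YN N (ρ ω) ω) ∧ Measurable (fun ω => E.VN N (ρ ω) ω) := by
  have a1 : ∀ {B : ℝ≥0 → Ω → ℝ}, FBM 𝓕 P B → ∀ {σ : Ω → ℝ≥0}, ST 𝓕 σ →
      Measurable (fun ω => B (min (σ ω) (ρ ω)) ω) := fun hB _ hσ =>
    (meas_stopped hB.prog (hσ.inf hρ) fun ω => (min_le_right _ _).trans (hT ω)).mono
      (𝓕.le _) le_rfl
  have a2 : ∀ {σ : Ω → ℝ≥0}, ST 𝓕 σ →
      Measurable (fun ω => ((min (σ ω) (ρ ω) : ℝ≥0) : ℝ)) := fun hσ =>
    NNReal.continuous_coe.measurable.comp (hσ.inf hρ).measurable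
  have a3 : ∀ i, Measurable fun ω => E.ca (E.n i ω) i := fun i =>
    (meas_ca (E.meas_X i)).mono (𝓕.le _) le_rfl
  have a4 : ∀ i, Measurable fun ω => E.cb (E.n i ω) i := fun i =>
    (meas_cb (E.meas_X i)).mono (𝓕.le _) le_rfl
  unfold YN VN
  constructor
  · refine (Finset.measurable_fun_sum _ fun i _ => ?_).const_add _
    exact ((a3 i).mul ((a1 E.h1 (E.st_τ i)).sub (a1 E.h1 (ST.const _)))).sub
      ((((a3 i).pow_const 2).mul ((a2 (E.st_τ i)).sub (a2 (ST.const _)))).div_const 2)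
  · refine (Finset.measurable_fun_sum _ fun i _ => ?_).const_add _
    exact (a4 i).mul ((a1 E.h2 (E.st_τ i)).sub (a1 E.h2 (ST.const _)))

lemma lintegral_final [IsProbabilityMeasure P] {h : ℝ × ℝ → ℝ} (hm : Measurable h)
    (hh : ∀ k y v, WValid k y v → h (y, v) ≤ pot k y v) {ρ : Ω → ℝ≥0} (hρ : ST 𝓕 ρ)
    {T : ℝ≥0} (hT : ∀ ω, ρ ω ≤ T) :
    ∫⁻ ω, ENNReal.ofReal (h (E.Y hg (ρ ω) ω, E.V hg (ρ ω) ω)) ∂P ≤
      ENNReal.ofReal (pot 0 3 (-1)) := by
  calc _ = ∫⁻ ω, liminf (fun N => ENNReal.ofReal (h (E.YN N (ρ ω) ω, E.VN N (ρ ω) ω))) atTop ∂P := by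
        refine lintegral_congr_ae ?_
        filter_upwards [E.ae_done] with ω ⟨N, hN⟩
        refine (Tendsto.liminf_eq (tendsto_const_nhds.congr' ?_)).symm
        filter_upwards [eventually_ge_atTop N] with M hM
        rw [E.Y_eq hg (N := M) fun i hi => hN i (hM.trans hi),
          E.V_eq hg (N := M) fun i hi => hN i (hM.trans hi)]
    _ ≤ liminf (fun N => ∫⁻ ω, ENNReal.ofReal (h (E.YN N (ρ ω) ω, E.VN N (ρ ω) ω)) ∂P) atTop :=
        lintegral_liminf_le fun N => ENNReal.measurable_ofReal.comp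
          (hm.comp ((E.meas_YN hρ hT N).1.prodMk (E.meas_YN hρ hT N).2))
    _ ≤ _ := liminf_le_of_frequently_le' (Frequently.of_forall fun N =>
        E.lintegral_h_le (h := fun y v => h (y, v)) hh hρ N)

lemma classD [IsProbabilityMeasure P] (T : ℝ≥0) {π : ℝ × ℝ → ℝ} (hπ : Measurable π)
    (hπ' : ∀ y v, π (y, v) = y ∨ π (y, v) = v) :
    IsClassD 𝓕 P T (fun t ω => Real.exp |π (E.Y hg t ω, E.V hg t ω)|) := by
  have pY := prog_of_cont (E.adapted_Y hg) (E.cont_Y hg)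
  have pV := prog_of_cont (E.adapted_V hg) (E.cont_V hg)
  have hf : Measurable (fun p : ℝ × ℝ => Real.exp |π p|) := Real.measurable_exp.comp hπ.abs
  refine ⟨fun t => hf.comp ((E.adapted_Y hg t).prodMk (E.adapted_V hg t)), ?_⟩
  refine ui_of_tail (fun τ => ?_) (fun _ _ => (Real.exp_pos _).le) fun ε hε => ?_
  · have hτ := ST.of_isStoppingTime τ.2.1
    exact hf.comp (((meas_stopped pY hτ τ.2.2).mono (𝓕.le _) le_rfl).prodMk
      ((meas_stopped pV hτ τ.2.2).mono (𝓕.le _) le_rfl))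
  · obtain ⟨K, hK⟩ := ((tendsto_pow_atTop_atTop_of_one_lt
      (show (1 : ℝ) < 5 / 4 by norm_num)).eventually_ge_atTop (pot 0 3 (-1) / ε)).exists
    refine ⟨Real.exp (3 ^ (K + 1)), Real.exp_pos _, fun τ => ?_⟩
    have hτ := ST.of_isStoppingTime τ.2.1
    have h1 := E.lintegral_final hg
      (h := fun p => (5 / 4) ^ K * (Real.exp |π p| - Real.exp (3 ^ (K + 1))))
      ((hf.sub_const _).const_mul _) (fun k y v hw => hw.tail_le_pot (hπ' y v) K) hτ τ.2.2
    have hp : (0 : ℝ) < (5 / 4) ^ K := by positivity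
    simp_rw [ENNReal.ofReal_mul hp.le] at h1
    rw [lintegral_const_mul' _ _ ENNReal.ofReal_ne_top] at h1
    have h2 : ENNReal.ofReal (pot 0 3 (-1)) ≤ ENNReal.ofReal ((5 / 4) ^ K) * ENNReal.ofReal ε := by
      rw [← ENNReal.ofReal_mul hp.le]
      exact ENNReal.ofReal_le_ofReal ((div_le_iff₀ hε).mp hK)
    exact (ENNReal.mul_le_mul_iff_right (by simp) ENNReal.ofReal_ne_top).mp (h1.trans h2)

lemma sol_Y [IsProbabilityMeasure P] (T : ℝ≥0) :
    IsSolution 𝓕 P T E.B1 E.B2 (E.Y hg T) (E.Y hg) (E.D1 hg).Z (E.D0 hg).Z where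
  prog_Y := prog_of_cont (E.adapted_Y hg) (E.cont_Y hg)
  prog_Z1 := (E.D1 hg).prog_Z
  prog_Z2 := (E.D0 hg).prog_Z
  cont_Y := fun ω => (E.cont_Y hg ω).continuousOn
  sq_int := ae_of_all _ fun ω =>
    (((E.D1 hg).integrable_Z_sq ω).add ((E.D0 hg).integrable_Z_sq ω)).integrableOn
  equation := ⟨_, _, (E.D1 hg).isItoIntegral E.h1 T, (E.D0 hg).isItoIntegral E.h2 T,
    ae_of_all _ fun ω t ht => by
      rw [intervalIntegral.integral_div, (E.D1 hg).integral_Z_sq ω ht, D0_I, D0_I]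
      unfold Y
      ring⟩

lemma sol_V [IsProbabilityMeasure P] {T : ℝ≥0} (hT : ∀ i, E.s i ≤ T) :
    IsSolution 𝓕 P T E.B1 E.B2 (E.Y hg T) (E.V hg) (E.D0 hg).Z (E.D2 hg).Z where
  prog_Y := prog_of_cont (E.adapted_V hg) (E.cont_V hg)
  prog_Z1 := (E.D0 hg).prog_Z
  prog_Z2 := (E.D2 hg).prog_Z
  cont_Y := fun ω => (E.cont_V hg ω).continuousOn
  sq_int := ae_of_all _ fun ω =>
    (((E.D0 hg).integrable_Z_sq ω).add ((E.D2 hg).integrable_Z_sq ω)).integrableOn
  equation := ⟨_, _, (E.D0 hg).isItoIntegral E.h1 T, (E.D2 hg).isItoIntegral E.h2 T, by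
    filter_upwards [E.ae_done] with ω ⟨N, hN⟩ t _
    have h1 : E.Y hg T ω = E.V hg T ω := by
      rw [E.Y_eq hg hN, E.V_eq hg hN, (E.YN_eq N ω T (hT N)).1, (E.YN_eq N ω T (hT N)).2,
        hN N le_rfl]
    rw [h1]
    simp only [D0_I, D0_Z]
    unfold V
    simp only [ne_eq, OfNat.ofNat_ne_zero, not_false_eq_true, zero_pow, zero_div,
      intervalIntegral.integral_zero]
    ring⟩

end Setup

lemma IsSolution.congr {T : ℝ≥0} {B1 B2 B1' B2' Y Z1 Z2 : ℝ≥0 → Ω → ℝ} {ξ : Ω → ℝ}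
    (h : IsSolution 𝓕 P T B1 B2 ξ Y Z1 Z2) (h1 : ∀ᵐ ω ∂P, ∀ t, B1 t ω = B1' t ω)
    (h2 : ∀ᵐ ω ∂P, ∀ t, B2 t ω = B2' t ω) : IsSolution 𝓕 P T B1' B2' ξ Y Z1 Z2 where
  prog_Y := h.prog_Y
  prog_Z1 := h.prog_Z1
  prog_Z2 := h.prog_Z2
  cont_Y := h.cont_Y
  sq_int := h.sq_int
  equation := by
    obtain ⟨I1, I2, a1, a2, a3⟩ := h.equation
    exact ⟨I1, I2, a1.congr h1, a2.congr h2, a3⟩

theorem main_abstract [IsProbabilityMeasure P] {B1 B2 : ℝ≥0 → Ω → ℝ} (h1 : FBM 𝓕 P B1)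
    (h2 : FBM 𝓕 P B2) (hnull : ∀ N : Set Ω, P N = 0 → MeasurableSet[𝓕 0] N) {T : ℝ≥0}
    (hT : 0 < T) :
    ∃ (ξ : Ω → ℝ) (Y Z1 Z2 Y' Z1' Z2' : ℝ≥0 → Ω → ℝ),
      Measurable[𝓕 T] ξ ∧ Integrable (fun ω => Real.exp |ξ ω|) P ∧
      IsSolution 𝓕 P T B1 B2 ξ Y Z1 Z2 ∧ IsSolution 𝓕 P T B1 B2 ξ Y' Z1' Z2' ∧
      IsClassD 𝓕 P T (fun t ω => Real.exp |Y t ω|) ∧
      IsClassD 𝓕 P T (fun t ω => Real.exp |Y' t ω|) ∧ ∀ ω, Y 0 ω ≠ Y' 0 ω := by
  let E : Setup 𝓕 P :=
    { B1 := B1, B2 := B2, s := fun i => T * i / (i + 1), h1 := h1, h2 := h2, s0 := by simp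
      lt := fun i => by
        rw [div_lt_div_iff₀ (by positivity) (by positivity), mul_assoc, mul_assoc]
        refine mul_lt_mul_of_pos_left ?_ hT
        have : i * (i + 1 + 1) < (i + 1) * (i + 1) := by linarith only []
        exact_mod_cast this }
  have hs : ∀ i, E.s i ≤ T := fun i => by
    show T * i / (i + 1) ≤ T
    rw [div_le_iff₀ (by positivity)]
    gcongr
    exact le_self_add
  have hg : MeasurableSet[𝓕 0] E.good := by
    have := (hnull _ (ae_iff.mp E.ae_done)).compl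
    convert this using 1
    ext ω; simp [Setup.good]
  have c1 := E.classD hg T (π := Prod.fst) measurable_fst fun _ _ => Or.inl rfl
  have c2 := E.classD hg T (π := Prod.snd) measurable_snd fun _ _ => Or.inr rfl
  refine ⟨E.Y hg T, E.Y hg, _, _, E.V hg, _, _, E.adapted_Y hg T, ?_, E.sol_Y hg T, E.sol_V hg hs,
    c1, c2, fun ω => by rw [E.Y_zero, E.V_zero]; norm_num⟩
  exact memLp_one_iff_integrable.mp
    (c1.2.memLp ⟨fun _ => T, isStoppingTime_const 𝓕 T, fun _ => le_rfl⟩)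

end Pool.Agent.Work.MP_dddec1_pr
end

-- merged part: Pool.Agent.Work.MP_dddec1_pr.Aug
section
open MeasureTheory ProbabilityTheory Filter
open scoped NNReal ENNReal Topology

namespace Pool.Agent.Work.MP_dddec1_pr

variable {Ω : Type*} {mΩ : MeasurableSpace Ω} {P : Measure Ω}

/-- the natural sigma-algebra of a process up to time `s` -/
@[instance_reducible] def natSigma (B : ℝ≥0 → Ω → ℝ) (s : ℝ≥0) : MeasurableSpace Ω :=
  ⨆ u ∈ Set.Iic s, MeasurableSpace.comap (B u) Real.measurableSpace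

lemma indep_aug [IsProbabilityMeasure P] [P.IsComplete] {m1 m2 : MeasurableSpace Ω}
    (h : Indep m1 m2 P) :
    Indep (m1 ⊔ MeasurableSpace.generateFrom {N : Set Ω | P N = 0}) m2 P := by
  have h1 : m1 ⊔ MeasurableSpace.generateFrom {N : Set Ω | P N = 0} ≤
      eventuallyMeasurableSpace m1 (ae P) := by
    refine sup_le le_eventuallyMeasurableSpace (MeasurableSpace.generateFrom_le fun N hN => ?_)
    exact ⟨∅, @MeasurableSet.empty _ m1, ae_eq_empty.mpr hN⟩
  rw [Indep_iff] at h ⊢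
  intro t1 t2 ht1 ht2
  obtain ⟨t, ht, he⟩ := h1 t1 ht1
  rw [measure_congr he, ← h t t2 ht ht2]
  exact measure_congr (ae_eq_set_inter he EventuallyEq.rfl)

lemma indep_incr [IsProbabilityMeasure P] {B C : ℝ≥0 → Ω → ℝ} (hB : IsBrownianReal B P)
    (mB : ∀ t, Measurable (B t)) (mC : ∀ t, Measurable (C t))
    (hind : IndepFun (fun ω t => B t ω) (fun ω t => C t ω) P) {s t : ℝ≥0} (hst : s ≤ t) :
    Indep (natSigma B s ⊔ natSigma C s)
      (MeasurableSpace.comap (fun ω => B t ω - B s ω) Real.measurableSpace) P := by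
  set mD := MeasurableSpace.comap (fun ω => B t ω - B s ω) Real.measurableSpace with hmD
  set pB := MeasurableSpace.comap (fun ω t => B t ω) MeasurableSpace.pi with hpB
  set pC := MeasurableSpace.comap (fun ω t => C t ω) MeasurableSpace.pi with hpC
  have eB : ∀ u, Measurable[pB] (B u) := fun u =>
    (measurable_pi_apply u).comp (comap_measurable (fun ω t => B t ω))
  have eC : ∀ u, Measurable[pC] (C u) := fun u =>
    (measurable_pi_apply u).comp (comap_measurable (fun ω t => C t ω))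
  have l1 : natSigma B s ≤ pB := iSup₂_le fun u _ => (eB u).comap_le
  have l2 : natSigma C s ≤ pC := iSup₂_le fun u _ => (eC u).comap_le
  have l3 : mD ≤ pB := ((eB t).sub (eB s)).comap_le
  have l4 : natSigma B s ≤ mΩ := iSup₂_le fun u _ => (mB u).comap_le
  have l5 : natSigma C s ≤ mΩ := iSup₂_le fun u _ => (mC u).comap_le
  have l6 : mD ≤ mΩ := ((mB t).sub (mB s)).comap_le
  have i1 : Indep pB pC P := (IndepFun_iff_Indep _ _ _).mp hind
  have i2 : Indep (natSigma B s) mD P := by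
    have h := (IndepFun_iff_Indep _ _ _).mp (hB.toIsPreBrownianReal.indepFun_shift s).symm
    refine indep_of_indep_of_le_right (indep_of_indep_of_le_left h ?_) ?_
    · refine iSup₂_le fun u hu => Measurable.comap_le ?_
      exact (measurable_pi_apply (⟨u, hu⟩ : Set.Iic s)).comp
        (comap_measurable (fun ω (t : Set.Iic s) => B t ω))
    · refine Measurable.comap_le ?_
      have := (measurable_pi_apply (t - s)).comp
        (comap_measurable (fun ω u => B (s + u) ω - B s ω))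
      simpa [Function.comp_def, add_tsub_cancel_of_le hst] using this
  rw [Indep_iff] at i1 i2
  set p1 : Set (Set Ω) := {A | ∃ A1 A2, MeasurableSet[natSigma B s] A1 ∧
    MeasurableSet[natSigma C s] A2 ∧ A = A1 ∩ A2} with hp1
  refine IndepSets.indep (p1 := p1) (p2 := {A | MeasurableSet[mD] A}) (sup_le l4 l5) l6 ?_
    (@MeasurableSpace.isPiSystem_measurableSet _ mD) ?_
    (@MeasurableSpace.generateFrom_measurableSet _ mD).symm ?_
  · rintro _ ⟨A1, A2, a1, a2, rfl⟩ _ ⟨A1', A2', a1', a2', rfl⟩ _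
    exact ⟨A1 ∩ A1', A2 ∩ A2', a1.inter a1', a2.inter a2', Set.inter_inter_inter_comm _ _ _ _⟩
  · refine le_antisymm (sup_le (fun A hA => ?_) (fun A hA => ?_))
      (MeasurableSpace.generateFrom_le ?_)
    · exact MeasurableSpace.measurableSet_generateFrom
        ⟨A, Set.univ, hA, MeasurableSet.univ, (Set.inter_univ _).symm⟩
    · exact MeasurableSpace.measurableSet_generateFrom
        ⟨Set.univ, A, MeasurableSet.univ, hA, (Set.univ_inter _).symm⟩
    · rintro _ ⟨A1, A2, a1, a2, rfl⟩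
      exact MeasurableSet.inter (le_sup_left (a := natSigma B s) (b := natSigma C s) _ a1)
        (le_sup_right (a := natSigma B s) (b := natSigma C s) _ a2)
  · rw [IndepSets_iff]
    rintro _ D ⟨A1, A2, a1, a2, rfl⟩ hD
    rw [Set.inter_right_comm, i1 _ _ ((l1 _ a1).inter (l3 _ hD)) (l2 _ a2), i2 _ _ a1 hD,
      i1 _ _ (l1 _ a1) (l2 _ a2)]
    ring

open Classical in
lemma exists_fbm [IsProbabilityMeasure P] [P.IsComplete] {𝓕 : Filtration ℝ≥0 mΩ}
    {B C : ℝ≥0 → Ω → ℝ} (hB : IsBrownianReal B P) (hC : IsBrownianReal C P)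
    (hind : IndepFun (fun ω t => B t ω) (fun ω t => C t ω) P)
    (h𝓕 : ∀ s, 𝓕 s = (natSigma B s ⊔ natSigma C s) ⊔
      MeasurableSpace.generateFrom {N : Set Ω | P N = 0}) :
    ∃ B' : ℝ≥0 → Ω → ℝ, FBM 𝓕 P B' ∧ ∀ᵐ ω ∂P, ∀ t, B' t ω = B t ω := by
  have mB : ∀ t, Measurable (B t) := fun t =>
    (hB.toIsPreBrownianReal.aemeasurable t).nullMeasurable.measurable_of_complete
  have mC : ∀ t, Measurable (C t) := fun t =>
    (hC.toIsPreBrownianReal.aemeasurable t).nullMeasurable.measurable_of_complete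
  set G : Set Ω := {ω | Continuous fun t => B t ω} with hG
  have hG0 : P Gᶜ = 0 := ae_iff.mp hB.cont
  have hGm : ∀ s, MeasurableSet[𝓕 s] G := fun s => by
    rw [← compl_compl G, h𝓕]
    exact MeasurableSet.compl (le_sup_right (a := natSigma B s ⊔ natSigma C s) _
      (MeasurableSpace.measurableSet_generateFrom hG0))
  have hBa : ∀ s, Measurable[𝓕 s] (B s) := fun s => by
    refine Measurable.of_comap_le ?_
    rw [h𝓕]
    exact le_sup_of_le_left (le_sup_of_le_left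
      (le_iSup₂_of_le (f := fun u (_ : u ∈ Set.Iic s) =>
        MeasurableSpace.comap (B u) Real.measurableSpace) s (Set.mem_Iic.mpr le_rfl) le_rfl))
  have hae : ∀ᵐ ω ∂P, ∀ t, (if ω ∈ G then B t ω else 0) = B t ω := by
    filter_upwards [hB.cont] with ω hω t using if_pos hω
  have hd : ∀ s t, (fun ω => B t ω - B s ω) =ᵐ[P]
      fun ω => (if ω ∈ G then B t ω else 0) - (if ω ∈ G then B s ω else 0) := fun s t => by
    filter_upwards [hae] with ω hω
    rw [hω, hω]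
  refine ⟨fun t ω => if ω ∈ G then B t ω else 0, ⟨fun t => ?_, fun ω => ?_, fun s t hst => ?_,
    fun s t hst => ?_⟩, hae⟩
  · exact Measurable.ite (hGm t) (hBa t) measurable_const
  · by_cases hω : ω ∈ G
    · simp only [hω, if_true]; exact hω
    · simp only [hω, if_false]; exact continuous_const
  · rw [← Measure.map_congr (hd s t)]
    have := (hB.toIsPreBrownianReal.hasLaw_sub t s).map_eq
    refine this.trans ?_
    congr 1
    ext
    rw [coe_nndist, Real.dist_eq, NNReal.coe_sub hst, abs_of_nonneg]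
    · rfl
    · exact sub_nonneg.mpr hst
  · have h := indep_aug (indep_incr hB mB mC hind hst)
    rw [← h𝓕, Indep_iff] at h
    rw [Indep_iff]
    rintro t1 _ ht1 ⟨S, hS, rfl⟩
    have he : (fun ω => B t ω - B s ω) ⁻¹' S =ᵐ[P]
        (fun ω => (if ω ∈ G then B t ω else 0) - (if ω ∈ G then B s ω else 0)) ⁻¹' S :=
      (hd s t).preimage S
    rw [← measure_congr he, ← h t1 _ ht1 ⟨S, hS, rfl⟩]
    exact measure_congr (ae_eq_set_inter EventuallyEq.rfl he.symm)

lemma augFiltration_eq [P.IsComplete] {B1 B2 : ℝ≥0 → Ω → ℝ}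
    (h1 : IsBrownianReal B1 P) (h2 : IsBrownianReal B2 P) (s : ℝ≥0) :
    augFiltration P B1 B2 h1 h2 s = (natSigma B1 s ⊔ natSigma B2 s) ⊔
      MeasurableSpace.generateFrom {N : Set Ω | P N = 0} := by
  unfold natSigma
  simp only [← iSup_sup_eq]
  rfl

end Pool.Agent.Work.MP_dddec1_pr
end
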